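import Pool.Agent.GTR.Cl.Word

/-!
# GTR / Cl / Cross: the sign of a path with crossings
-/

set_option autoImplicit false

open Finset Filter Topology

noncomputable section

namespace Pool.GTR

variable {m : ℕ}

/-- multiplication of the rows by the numbers `c` -/
def DM (c : Fin (m + 1) → ℝ) (M : Fin m → Fin (m + 1) → ℝ) : Fin m → Fin (m + 1) → ℝ :=
  fun j t => c t * M j t

/-- the sign vector after `r` crossings -/
def svw (i : ℕ → Fin (m + 1)) : ℕ → Fin (m + 1) → ℝ
  | 0, _ => 1
  | r + 1, a => if a = i r then -svw i r a else svw i r a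

lemma svw_cnt (i : ℕ → Fin (m + 1)) (r : ℕ) (a : Fin (m + 1)) :
    svw i r a = (-1) ^ cnt i r a := by
  induction r with
  | zero => unfold svw cnt; simp
  | succ r ih =>
    unfold svw
    rw [cnt_succ, ih]
    split_ifs with h
    · rw [pow_succ, mul_neg_one]
    · rfl

lemma DM_svw_succ (i : ℕ → Fin (m + 1)) (r : ℕ) (M : Fin m → Fin (m + 1) → ℝ) :
    DM (svw i (r + 1)) M = fun j => rc (i r) (DM (svw i r) M j) := by
  funext j t
  unfold DM rc
  conv_lhs => unfold svw
  split_ifs
  · ring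
  · rfl

lemma DM_one (M : Fin m → Fin (m + 1) → ℝ) (i : ℕ → Fin (m + 1)) : DM (svw i 0) M = M := by
  funext j t
  unfold DM svw
  rw [one_mul]

lemma IsGS.svw {M q : Fin m → Fin (m + 1) → ℝ} (h : IsGS M q) (i : ℕ → Fin (m + 1)) (r : ℕ) :
    IsGS (DM (Pool.GTR.svw i r) M) (DM (Pool.GTR.svw i r) q) := by
  induction r with
  | zero => rwa [DM_one, DM_one]
  | succ r ih =>
    rw [DM_svw_succ, DM_svw_succ]
    exact ih.rc (i r)

lemma Lq.opw {q : Fin m → Fin (m + 1) → ℝ} {g : Spn m} (h : Lq q g) (i : ℕ → Fin (m + 1))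
    (r : ℕ) : Lq (DM (svw i r) q) (Pool.GTR.opw i r g) := by
  induction r with
  | zero => rwa [DM_one]
  | succ r ih =>
    rw [DM_svw_succ]
    exact ih.tw (i r)

lemma opw_smul (i : ℕ → Fin (m + 1)) (r : ℕ) (c : ℝ) (g : Spn m) :
    opw i r (c • g) = c • opw i r g := by
  induction r with
  | zero => rfl
  | succ r ih =>
    show tw (i r) (opw i r (c • g)) = c • tw (i r) (opw i r g)
    rw [ih, tw_smul]

lemma opw_ne (i : ℕ → Fin (m + 1)) (r : ℕ) {g : Spn m} (h : g ≠ 0) : opw i r g ≠ 0 := by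
  induction r with
  | zero => exact h
  | succ r ih => exact tw_ne ih

lemma continuous_opw (i : ℕ → Fin (m + 1)) (r : ℕ) : Continuous (opw (m := m) i r) := by
  induction r with
  | zero => exact continuous_id
  | succ r ih => exact (continuous_tw (i r)).comp ih

/-- two paths which differ by the crossings `z r` of the rows `i r`, `r < N` -/
structure XD (A B : ℝ → Fin m → Fin (m + 1) → ℝ) (N : ℕ) (i : ℕ → Fin (m + 1)) (z : ℕ → ℝ)
    (κ : Fin (m + 1) → ℝ) : Prop where
  hA : GP A
  hB : GP B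
  zpos : ∀ r, r < N → 0 < z r ∧ z r < Real.pi
  zmono : ∀ r, r + 1 < N → z r < z (r + 1)
  rel : ∀ r, r ≤ N → ∀ x ∈ Set.Icc 0 Real.pi, (∀ s, s + 1 = r → z s ≤ x) →
    (r < N → x ≤ z r) → B x = DM (svw i r) (A x)
  kap : ∀ r, r < N → KapIs (i r) (gsq (A (z r))) (κ (i r))
  kap1 : ∀ a, κ a = 1 ∨ κ a = -1

lemma XD.gsqB {A B : ℝ → Fin m → Fin (m + 1) → ℝ} {N : ℕ} {i : ℕ → Fin (m + 1)} {z : ℕ → ℝ}
    {κ : Fin (m + 1) → ℝ} (h : XD A B N i z κ) {r : ℕ} {x : ℝ} (hx : x ∈ Set.Icc 0 Real.pi)
    (hrel : B x = DM (svw i r) (A x)) : gsq (B x) = DM (svw i r) (gsq (A x)) := by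
  have h1 := gsq_isGS (h.hB.li x hx)
  have h2 := (gsq_isGS (h.hA.li x hx)).svw i r
  rw [← hrel] at h2
  exact h1.unique h2

/-- the section of `B` -/
theorem XD.section {A B : ℝ → Fin m → Fin (m + 1) → ℝ} {N : ℕ} {i : ℕ → Fin (m + 1)}
    {z : ℕ → ℝ} {κ : Fin (m + 1) → ℝ} (h : XD A B N i z κ) {gp : ℝ → Spn m}
    (hg : SecOn (fun x => gsq (A x)) 0 Real.pi gp) :
    ∃ g, SecOn (fun x => gsq (B x)) 0 Real.pi g ∧ g 0 = gp 0 ∧
      g Real.pi = cfw i κ N • opw i N (gp Real.pi) := by
  -- upper end of the `r`-th interval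
  obtain ⟨hi, hhi⟩ : ∃ hi : ℕ → ℝ, hi = fun r => if r < N then z r else Real.pi := ⟨_, rfl⟩
  have hi_mem : ∀ r, r ≤ N → 0 < hi r ∧ hi r ≤ Real.pi := by
    intro r _
    rw [hhi]
    simp only
    split_ifs with h1
    · exact ⟨(h.zpos r h1).1, (h.zpos r h1).2.le⟩
    · exact ⟨Real.pi_pos, le_rfl⟩
  have hi_lt : ∀ r, r < N → z r < hi (r + 1) := by
    intro r hr
    rw [hhi]
    simp only
    split_ifs with h1
    · exact h.zmono r h1
    · exact (h.zpos r hr).2
  have cfw_ne : ∀ r, cfw i κ r ≠ 0 := by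
    intro r
    unfold cfw
    refine mul_ne_zero (pow_ne_zero _ (by norm_num)) (prod_ne_zero_iff.2 fun s _ => ?_)
    rcases h.kap1 (i s) with h1 | h1 <;> rw [h1] <;> norm_num
  have key : ∀ r, r ≤ N → ∃ g, SecOn (fun x => gsq (B x)) 0 (hi r) g ∧ g 0 = gp 0 ∧
      ∀ x, (∀ s, s + 1 = r → z s ≤ x) → 0 ≤ x → x ≤ hi r → g x = cfw i κ r • opw i r (gp x) := by
    intro r
    induction r with
    | zero =>
      intro _
      have hc0 : cfw i κ 0 = 1 := by
        unfold cfw inv'
        simp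
      refine ⟨gp, ⟨?_, ?_, ?_⟩, rfl, ?_⟩
      · exact hg.cont.mono (Set.Icc_subset_Icc le_rfl (hi_mem 0 (Nat.zero_le _)).2)
      · intro x hx
        have hxI : x ∈ Set.Icc 0 Real.pi :=
          ⟨hx.1, hx.2.trans (hi_mem 0 (Nat.zero_le _)).2⟩
        have h1 := h.rel 0 (Nat.zero_le _) x hxI (fun s hs => by omega) (fun hN => by
          have := hx.2
          rw [hhi] at this
          simp only [if_pos hN] at this
          exact this)
        rw [DM_one] at h1
        rw [h1]
        exact hg.mem x hxI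
      · intro x hx
        exact hg.ne x ⟨hx.1, hx.2.trans (hi_mem 0 (Nat.zero_le _)).2⟩
      · intro x _ _ _
        rw [hc0, one_smul]
        rfl
    | succ r ih =>
      intro hr
      have hrN : r < N := by omega
      obtain ⟨g, hs, h0, hf⟩ := ih (by omega)
      have hhir : hi r = z r := by
        rw [hhi]
        simp only [if_pos hrN]
      rw [hhir] at hs hf
      have hz := h.zpos r hrN
      have hzlt := hi_lt r hrN
      have hzI : z r ∈ Set.Icc 0 Real.pi := ⟨hz.1.le, hz.2.le⟩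
      -- the two formulas agree at `z r`
      have hagree : cfw i κ (r + 1) • opw i (r + 1) (gp (z r)) =
          cfw i κ r • opw i r (gp (z r)) := by
        have e1 : opw i (r + 1) (gp (z r)) = tw (i r) (opw i r (gp (z r))) := rfl
        have e2 := h.kap r hrN (gp (z r)) (hg.mem _ hzI)
        rw [e1, opw_tw, e2, opw_smul, smul_smul, smul_smul, cfw_succ]
        congr 1
        have e3 : κ (i r) * κ (i r) = 1 := mul_self_eq_one_iff.2 (h.kap1 (i r))
        have e4 : ((-1 : ℝ) ^ ((range r).filter (fun s => i s ≠ i r)).card) *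
            (-1) ^ ((range r).filter (fun s => i s ≠ i r)).card = 1 := by
          rw [← mul_pow]
          norm_num
        linear_combination (cfw i κ r * (((-1 : ℝ) ^
          ((range r).filter (fun s => i s ≠ i r)).card) *
            (-1) ^ ((range r).filter (fun s => i s ≠ i r)).card)) * e3 + cfw i κ r * e4
      have hgz : g (z r) = cfw i κ r • opw i r (gp (z r)) := by
        refine hf (z r) (fun s hs2 => ?_) hz.1.le le_rfl
        have hs3 : s + 1 < N := by omega
        have := h.zmono s hs3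
        rw [hs2] at this
        exact this.le
      refine ⟨fun x => if x ≤ z r then g x else cfw i κ (r + 1) • opw i (r + 1) (gp x),
        ⟨?_, ?_, ?_⟩, ?_, ?_⟩
      · rw [← Set.Icc_union_Icc_eq_Icc hz.1.le hzlt.le]
        refine ContinuousOn.union_of_isClosed ?_ ?_ isClosed_Icc isClosed_Icc
        · refine hs.cont.congr fun x hx => ?_
          rw [if_pos hx.2]
        · have h2 : ContinuousOn (fun x => cfw i κ (r + 1) • opw i (r + 1) (gp x))
              (Set.Icc (z r) (hi (r + 1))) := by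
            have h3 : ContinuousOn (fun x => opw i (r + 1) (gp x))
                (Set.Icc (z r) (hi (r + 1))) := (continuous_opw i (r + 1)).comp_continuousOn
              (hg.cont.mono (Set.Icc_subset_Icc hz.1.le (hi_mem (r + 1) hr).2))
            exact h3.const_smul (cfw i κ (r + 1))
          refine h2.congr fun x hx => ?_
          rcases hx.1.eq_or_lt with h3 | h3
          · rw [if_pos h3.ge, ← h3]
            show g (z r) = cfw i κ (r + 1) • opw i (r + 1) (gp (z r))
            rw [hagree, hgz]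
          · rw [if_neg (not_le.2 h3)]
      · intro x hx
        split_ifs with h3
        · exact hs.mem x ⟨hx.1, h3⟩
        · have h4 := not_le.1 h3
          have hxI : x ∈ Set.Icc 0 Real.pi := ⟨hx.1, hx.2.trans (hi_mem (r + 1) hr).2⟩
          have h5 := h.rel (r + 1) hr x hxI (fun s hs2 => by
            have : s = r := by omega
            rw [this]
            exact h4.le) (fun hN => by
            have := hx.2
            rw [hhi] at this
            simp only [if_pos hN] at this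
            exact this)
          have h6 := h.gsqB hxI h5
          show Lq (gsq (B x)) _
          rw [h6]
          exact ((hg.mem x hxI).opw i (r + 1)).smul _
      · intro x hx
        split_ifs with h3
        · exact hs.ne x ⟨hx.1, h3⟩
        · exact smul_ne_zero (cfw_ne _)
            (opw_ne i (r + 1) (hg.ne x ⟨hx.1, hx.2.trans (hi_mem (r + 1) hr).2⟩))
      · show (if (0 : ℝ) ≤ z r then g 0 else _) = gp 0
        rw [if_pos hz.1.le, h0]
      · intro x hx1 hx2 hx3
        have h4 := hx1 r rfl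
        show (if x ≤ z r then g x else cfw i κ (r + 1) • opw i (r + 1) (gp x)) = _
        rcases h4.eq_or_lt with h5 | h5
        · rw [if_pos h5.ge, ← h5, hagree, hgz]
        · rw [if_neg (not_le.2 h5)]
  obtain ⟨g, hs, h0, hf⟩ := key N le_rfl
  have hhN : hi N = Real.pi := by
    rw [hhi]
    simp only [lt_irrefl, if_false]
  rw [hhN] at hs hf
  refine ⟨g, hs, h0, hf Real.pi (fun s hs2 => ?_) Real.pi_pos.le le_rfl⟩
  exact (h.zpos s (by omega)).2.le

lemma srt_smul (n : Fin (m + 1) → ℕ) (L : List (Fin (m + 1))) (c : ℝ) (g : Spn m) :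
    srt n L (c • g) = c • srt n L g := by
  induction L with
  | nil => rfl
  | cons a L ih =>
    show (tw a)^[n a] (srt n L (c • g)) = c • (tw a)^[n a] (srt n L g)
    rw [ih, iter_smul]

lemma sgw_sq (i : ℕ → Fin (m + 1)) (N : ℕ) : sgw i N * sgw i N = 1 := by
  unfold sgw
  rw [← mul_pow]
  norm_num

/-- the signs of two words with the same letters -/
theorem XD.two {A B A' B' : ℝ → Fin m → Fin (m + 1) → ℝ} {N : ℕ} {i i' : ℕ → Fin (m + 1)}
    {z z' : ℕ → ℝ} {κ : Fin (m + 1) → ℝ} (h : XD A B N i z κ) (h' : XD A' B' N i' z' κ)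
    (hcnt : cnt i N = cnt i' N) (hAA : eps A = eps A')
    (hpi : ∃ q, IsGS (A Real.pi) q ∧ IsGS (A' Real.pi) q) :
    eps B * sgw i N = eps B' * sgw i' N := by
  obtain ⟨gp, hg, g0, g1⟩ := h.hA.eps_spec
  obtain ⟨gp', hg', g0', g1'⟩ := h'.hA.eps_spec
  obtain ⟨f, hf, f0, f1⟩ := h.section hg
  obtain ⟨f', hf', f0', f1'⟩ := h'.section hg'
  obtain ⟨q, hq, hq'⟩ := hpi
  have e1 : gsq (A Real.pi) = q := (gsq_isGS (h.hA.li _ GP.pi_mem)).unique hq
  have e1' : gsq (A' Real.pi) = q := (gsq_isGS (h'.hA.li _ GP.pi_mem)).unique hq'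
  have m1 := hg.mem _ GP.pi_mem
  have m1' := hg'.mem _ GP.pi_mem
  simp only [e1] at m1
  simp only [e1'] at m1'
  obtain ⟨c, hc⟩ := lq_pair hq.1 m1 m1' (hg.ne _ GP.pi_mem)
  have hcpos : 0 < c := by
    rw [hc, tot_smul, ← hAA] at g1'
    have h2 : 0 < (eps A * tot (gp Real.pi)) * (c * (eps A * tot (gp Real.pi))) := by
      have : 0 < eps A * (c * tot (gp Real.pi)) := g1'
      have h3 := mul_pos g1 this
      have h4 : eps A * tot (gp Real.pi) * (eps A * (c * tot (gp Real.pi))) =
          eps A * tot (gp Real.pi) * (c * (eps A * tot (gp Real.pi))) := by ring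
      rwa [h4] at h3
    have h5 := (pos_iff_pos_of_mul_pos h2).1 g1
    exact (pos_iff_pos_of_mul_pos h5).2 g1
  rw [cfw_opw] at f1 f1'
  rw [← hcnt, hc, srt_smul] at f1'
  obtain ⟨K, hK⟩ : ∃ K, K = ∏ a, κ a ^ cnt i N a := ⟨_, rfl⟩
  rw [← hK] at f1
  rw [← hK] at f1'
  obtain ⟨w, hw⟩ : ∃ w, w = srt (cnt i N) (List.finRange (m + 1)) (gp Real.pi) := ⟨_, rfl⟩
  rw [← hw] at f1 f1'
  -- signs of the two sections
  have hB : 0 < eps B * tot (f Real.pi) := by
    have hs : tot (f Real.pi) ≠ 0 := h.hB.totpi (hf.mem _ GP.pi_mem) (hf.ne _ GP.pi_mem)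
    rcases lt_or_gt_of_ne hs with h2 | h2
    · have : EpsIs B (-1) := ⟨f, hf, by rw [f0]; exact g0, by linarith⟩
      rw [h.hB.eps_eq this (Or.inr rfl)]
      linarith
    · have : EpsIs B 1 := ⟨f, hf, by rw [f0]; exact g0, by linarith⟩
      rw [h.hB.eps_eq this (Or.inl rfl)]
      linarith
  have hB' : 0 < eps B' * tot (f' Real.pi) := by
    have hs : tot (f' Real.pi) ≠ 0 := h'.hB.totpi (hf'.mem _ GP.pi_mem) (hf'.ne _ GP.pi_mem)
    rcases lt_or_gt_of_ne hs with h2 | h2
    · have : EpsIs B' (-1) := ⟨f', hf', by rw [f0']; exact g0', by linarith⟩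
      rw [h'.hB.eps_eq this (Or.inr rfl)]
      linarith
    · have : EpsIs B' 1 := ⟨f', hf', by rw [f0']; exact g0', by linarith⟩
      rw [h'.hB.eps_eq this (Or.inl rfl)]
      linarith
  rw [f1, tot_smul] at hB
  rw [f1', tot_smul, tot_smul] at hB'
  have h6 : 0 < (eps B * (sgw i N * K * tot w)) * (eps B' * (sgw i' N * K * (c * tot w))) :=
    mul_pos hB hB'
  have h7 : (eps B * (sgw i N * K * tot w)) * (eps B' * (sgw i' N * K * (c * tot w))) =
      (eps B * sgw i N * (eps B' * sgw i' N)) * (c * ((K * tot w) * (K * tot w))) := by ring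
  rw [h7] at h6
  have h8 : 0 ≤ c * ((K * tot w) * (K * tot w)) := mul_nonneg hcpos.le (mul_self_nonneg _)
  have h9 : 0 < eps B * sgw i N * (eps B' * sgw i' N) := by
    by_contra hcon
    exact absurd h6 (not_lt.2 (mul_nonpos_of_nonpos_of_nonneg (not_lt.1 hcon) h8))
  have hsq : ∀ (x y : ℝ), (x = 1 ∨ x = -1) → (y = 1 ∨ y = -1) → 0 < x * y → x = y := by
    intro x y hx hy hxy
    rcases hx with rfl | rfl <;> rcases hy with rfl | rfl <;>
      first
        | rfl
        | (exfalso; norm_num at hxy)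
  have hs1 : ∀ (B : ℝ → Fin m → Fin (m + 1) → ℝ) (i : ℕ → Fin (m + 1)),
      eps B * sgw i N = 1 ∨ eps B * sgw i N = -1 := by
    intro B i
    have h10 : sgw i N = 1 ∨ sgw i N = -1 := mul_self_eq_one_iff.1 (sgw_sq i N)
    rcases eps_or B with h11 | h11 <;> rcases h10 with h12 | h12 <;> rw [h11, h12] <;> norm_num
  exact hsq _ _ (hs1 B i) (hs1 B' i') h9

end Pool.GTR
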