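import Pool.Agent.GTR.Cl.GS

/-!
# GTR / Cl / Eps: the sign of a path of matrices of rank `m`

`GP M`: `M` continuous on `[0, π]`, `m` independent vectors of `ℝ^(m+1)`, the Gram-Schmidt frame is
standard at `0` and plus or minus standard at `π`.  `eps M = ± 1`: sign of the transport of `1 ∈ L(M 0)`
along a continuous section of `L(M x)`.  `eps_tendsto`: `eps` is locally constant, `eps_const`: constant
on connected families.
-/

set_option autoImplicit false

open Finset Filter Topology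

noncomputable section

namespace Pool.GTR

variable {m : ℕ}

/-- the sum of the coordinates -/
def tot (g : Spn m) : ℝ := ∑ S, g S

lemma tot_smul (c : ℝ) (g : Spn m) : tot (c • g) = c * tot g := by
  unfold tot
  rw [mul_sum]
  exact sum_congr rfl fun S _ => rfl

lemma continuous_tot : Continuous (tot (m := m)) := by
  unfold tot
  exact continuous_finsetSum _ fun S _ => continuous_apply S

/-- `s` is a sign of the path `M` -/
def EpsIs (M : ℝ → Fin m → Fin (m + 1) → ℝ) (s : ℝ) : Prop :=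
  ∃ g : ℝ → Spn m, SecOn (fun x => gsq (M x)) 0 Real.pi g ∧ 0 < tot (g 0) ∧
    0 < s * tot (g Real.pi)

/-- the paths with a sign -/
structure GP (M : ℝ → Fin m → Fin (m + 1) → ℝ) : Prop where
  cont : ContinuousOn M (Set.Icc 0 Real.pi)
  li : ∀ x ∈ Set.Icc 0 Real.pi, LinearIndependent ℝ (M x)
  std0 : IsGS (M 0) stdF
  stdpi : IsGS (M Real.pi) stdF ∨ IsGS (M Real.pi) (-stdF)

/-- the sign -/
def eps (M : ℝ → Fin m → Fin (m + 1) → ℝ) : ℝ :=
  haveI := Classical.propDecidable (EpsIs M 1)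
  if EpsIs M 1 then 1 else -1

lemma tot_std {g : Spn m} (h : Lq stdF g) (h0 : g ≠ 0) : tot g ≠ 0 := by
  obtain ⟨c, hc⟩ := lq_pair (m := m) (q := stdF) (isGS_std (m := m)
    (M := fun j => stdF j) (fun j => by simp [stdF]) (fun j i hij => by
      unfold stdF
      rw [Pi.single_eq_of_ne hij.ne'])).1 lq_std h (by
      intro h1
      have := congrFun h1 ∅
      simp [one'] at this)
  have hc0 : c ≠ 0 := by
    rintro rfl
    rw [zero_smul] at hc
    exact h0 hc
  rw [hc, tot_smul]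
  have h1 : tot (m := m) one' = 1 := by
    unfold tot one'
    rw [sum_eq_single ∅]
    · simp
    · intro S _ hS
      rw [Pi.single_eq_of_ne hS]
    · simp
  rw [h1, mul_one]
  exact hc0

/-- the elements of `L(-std)` have one coordinate -/
lemma tot_neg_std {g : Spn m} (h : Lq (-stdF) g) (h0 : g ≠ 0) : tot g ≠ 0 := by
  -- sets `S` with `g S ≠ 0` contain all `castSucc j`
  have key : ∀ S, g S ≠ 0 → ∀ j : Fin m, j.castSucc ∈ S := by
    intro S hS j
    by_contra hj
    have h1 := h.2 j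
    have h2 : lv ((-stdF : Fin m → Fin (m + 1) → ℝ) j) g = -eL j.castSucc g := by
      have e1 : ((-stdF : Fin m → Fin (m + 1) → ℝ) j) = (-1 : ℝ) • (stdF j) := by
        rw [Pi.neg_apply, neg_one_smul]
      rw [e1, lv_smul]
      unfold stdF
      rw [lv_single, neg_one_smul]
    rw [h2] at h1
    have h3 := congrFun h1 (symmDiff S {j.castSucc})
    rw [Pi.neg_apply, eL_apply, eR_apply, sd_sd, ← neg_mul] at h3
    have h4 := mul_right_cancel₀ hS h3
    rw [sg_symm, sg_symm, if_neg (lt_irrefl _), if_neg (lt_irrefl _)] at h4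
    have h5 : sg (· < j.castSucc) S * sg (j.castSucc < ·) S = (-1) ^ S.card := by
      have e1 : S = S.filter (· < j.castSucc) ∪ S.filter (j.castSucc < ·) := by
        ext x
        simp only [mem_union, mem_filter]
        constructor
        · intro hx
          rcases lt_trichotomy x j.castSucc with h6 | h6 | h6
          · exact Or.inl ⟨hx, h6⟩
          · exact absurd (h6 ▸ hx) hj
          · exact Or.inr ⟨hx, h6⟩
        · rintro (h6 | h6)
          · exact h6.1
          · exact h6.1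
      have e3 : Disjoint (S.filter (· < j.castSucc)) (S.filter (j.castSucc < ·)) := by
        rw [Finset.disjoint_left]
        intro x hx hx2
        rw [mem_filter] at hx hx2
        exact absurd hx.2 (not_lt.2 hx2.2.le)
      have e4 : S.card = (S.filter (· < j.castSucc)).card +
          (S.filter (j.castSucc < ·)).card := by
        conv_lhs => rw [e1]
        rw [card_union_of_disjoint e3]
      rw [e4, pow_add]
      rfl
    have h6 : (-1 : ℝ) ^ S.card = 1 := by
      rcases sgn_card S with h7 | h7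
      · exact h7
      · exact absurd (h.1 S h7) hS
    rw [h6, ← h4, mul_neg, sg_sq] at h5
    norm_num at h5
  obtain ⟨S0, hS0⟩ : ∃ S, g S ≠ 0 := by
    by_contra hcon
    push Not at hcon
    exact h0 (funext hcon)
  have huniq : ∀ S, g S ≠ 0 → S = S0 := by
    intro S hS
    have e1 := key S hS
    have e2 := key S0 hS0
    have e3 : ∀ A : Finset (Fin (m + 1)), (∀ j : Fin m, j.castSucc ∈ A) →
        A = univ ∨ A = univ.erase (Fin.last m) := by
      intro A hA
      by_cases hl : Fin.last m ∈ A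
      · left
        ext x
        simp only [mem_univ, iff_true]
        by_cases hx : x = Fin.last m
        · rw [hx]
          exact hl
        · have := hA (x.castPred hx)
          rwa [Fin.castSucc_castPred] at this
      · right
        ext x
        rw [mem_erase]
        constructor
        · intro hx
          refine ⟨?_, mem_univ x⟩
          rintro rfl
          exact hl hx
        · rintro ⟨hx, -⟩
          have := hA (x.castPred hx)
          rwa [Fin.castSucc_castPred] at this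
    have e4 : ∀ A : Finset (Fin (m + 1)), g A ≠ 0 → (-1 : ℝ) ^ A.card = 1 := by
      intro A hA
      rcases sgn_card A with h7 | h7
      · exact h7
      · exact absurd (h.1 A h7) hA
    have c1 : (univ : Finset (Fin (m + 1))).card = m + 1 := by simp
    have c2 : ((univ : Finset (Fin (m + 1))).erase (Fin.last m)).card = m := by
      rw [card_erase_of_mem (mem_univ _), c1]
      rfl
    have f1 := e4 S hS
    have f2 := e4 S0 hS0
    rcases e3 S e1 with h8 | h8 <;> rcases e3 S0 e2 with h9 | h9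
    · rw [h8, h9]
    · exfalso
      rw [h8, c1, pow_succ] at f1
      rw [h9, c2] at f2
      rw [f2] at f1
      norm_num at f1
    · exfalso
      rw [h8, c2] at f1
      rw [h9, c1, pow_succ] at f2
      rw [f1] at f2
      norm_num at f2
    · rw [h8, h9]
  unfold tot
  rw [sum_eq_single S0]
  · exact hS0
  · intro S _ hS
    by_contra hne
    exact hS (huniq S hne)
  · intro h9
    exact absurd (mem_univ _) h9

lemma GP.zero_mem : (0 : ℝ) ∈ Set.Icc 0 Real.pi := ⟨le_rfl, Real.pi_pos.le⟩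

lemma GP.pi_mem : Real.pi ∈ Set.Icc 0 Real.pi := ⟨Real.pi_pos.le, le_rfl⟩

lemma GP.of {M : ℝ → Fin m → Fin (m + 1) → ℝ} (h : GP M) {x : ℝ}
    (hx : x ∈ Set.Icc 0 Real.pi) : OF (gsq (M x)) := (gsq_isGS (h.li x hx)).1

lemma GP.contq {M : ℝ → Fin m → Fin (m + 1) → ℝ} (h : GP M) :
    ContinuousOn (fun x => gsq (M x)) (Set.Icc 0 Real.pi) := fun x hx =>
  (continuousAt_gsq (h.li x hx)).comp_continuousWithinAt (h.cont x hx)

lemma GP.tot0 {M : ℝ → Fin m → Fin (m + 1) → ℝ} (h : GP M) {g : Spn m}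
    (hg : Lq (gsq (M 0)) g) (h0 : g ≠ 0) : tot g ≠ 0 := by
  have h1 := (gsq_isGS (h.li 0 GP.zero_mem)).unique h.std0
  rw [h1] at hg
  exact tot_std hg h0

lemma GP.totpi {M : ℝ → Fin m → Fin (m + 1) → ℝ} (h : GP M) {g : Spn m}
    (hg : Lq (gsq (M Real.pi)) g) (h0 : g ≠ 0) : tot g ≠ 0 := by
  have h2 := gsq_isGS (h.li Real.pi GP.pi_mem)
  rcases h.stdpi with h1 | h1
  · rw [h2.unique h1] at hg
    exact tot_std hg h0
  · rw [h2.unique h1] at hg
    exact tot_neg_std hg h0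

theorem GP.exists_eps {M : ℝ → Fin m → Fin (m + 1) → ℝ} (h : GP M) :
    EpsIs M 1 ∨ EpsIs M (-1) := by
  obtain ⟨g, hg⟩ := exists_sec Real.pi_pos.le h.contq fun x hx => h.of hx
  have h0 := h.tot0 (hg.mem 0 GP.zero_mem) (hg.ne 0 GP.zero_mem)
  have h1 := h.totpi (hg.mem _ GP.pi_mem) (hg.ne _ GP.pi_mem)
  obtain ⟨a, ha⟩ : ∃ a, a = tot (g 0) := ⟨_, rfl⟩
  have hsec : SecOn (fun x => gsq (M x)) 0 Real.pi (fun x => a • g x) := by
    refine ⟨hg.cont.const_smul a, fun x hx => (hg.mem x hx).smul a, fun x hx => ?_⟩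
    exact smul_ne_zero (by rw [ha]; exact h0) (hg.ne x hx)
  have h2 : 0 < tot (a • g 0) := by
    rw [tot_smul, ← ha]
    exact mul_self_pos.2 (by rw [ha]; exact h0)
  have h3 : tot (a • g Real.pi) ≠ 0 := by
    rw [tot_smul]
    exact mul_ne_zero (by rw [ha]; exact h0) h1
  rcases lt_or_gt_of_ne h3 with h4 | h4
  · exact Or.inr ⟨_, hsec, h2, by linarith⟩
  · exact Or.inl ⟨_, hsec, h2, by linarith⟩

theorem GP.unique_eps {M : ℝ → Fin m → Fin (m + 1) → ℝ} (h : GP M) {s s' : ℝ}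
    (h1 : EpsIs M s) (h2 : EpsIs M s') : 0 < s * s' := by
  obtain ⟨g, hg, g0, g1⟩ := h1
  obtain ⟨g', hg', g0', g1'⟩ := h2
  -- the inner product of the two sections
  obtain ⟨f, hf⟩ : ∃ f : ℝ → ℝ, f = fun x => ∑ S, g x S * g' x S := ⟨_, rfl⟩
  have hfc : ContinuousOn f (Set.Icc 0 Real.pi) := by
    rw [hf]
    refine continuousOn_finsetSum _ fun S _ => ?_
    exact ((continuous_apply S).comp_continuousOn hg.cont).mul
      ((continuous_apply S).comp_continuousOn hg'.cont)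
  have hgg : ∀ x ∈ Set.Icc 0 Real.pi, 0 < ∑ S, g x S * g x S := by
    intro x hx
    refine lt_of_le_of_ne (sum_nonneg fun S _ => mul_self_nonneg _) fun h0 => ?_
    apply hg.ne x hx
    have h3 := (sum_eq_zero_iff_of_nonneg (fun S _ => mul_self_nonneg (g x S))).1 h0.symm
    funext S
    exact mul_self_eq_zero.1 (h3 S (mem_univ S))
  have hc : ∀ x ∈ Set.Icc 0 Real.pi, ∃ c : ℝ, c ≠ 0 ∧ g' x = c • g x ∧
      f x = c * ∑ S, g x S * g x S := by
    intro x hx
    obtain ⟨c, hc⟩ := lq_pair (h.of hx) (hg.mem x hx) (hg'.mem x hx) (hg.ne x hx)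
    refine ⟨c, ?_, hc, ?_⟩
    · rintro rfl
      rw [zero_smul] at hc
      exact hg'.ne x hx hc
    · rw [hf, mul_sum]
      refine sum_congr rfl fun S _ => ?_
      rw [hc, Pi.smul_apply, smul_eq_mul]
      ring
  have hf0 : 0 < f 0 := by
    obtain ⟨c, hc0, hc1, hc2⟩ := hc 0 GP.zero_mem
    rw [hc2]
    refine mul_pos ?_ (hgg 0 GP.zero_mem)
    rw [hc1, tot_smul] at g0'
    exact (pos_iff_pos_of_mul_pos g0').2 g0
  have hfpi : 0 < f Real.pi := by
    by_contra hcon
    have h3 : (0 : ℝ) ∈ Set.Icc (f Real.pi) (f 0) := ⟨not_lt.1 hcon, hf0.le⟩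
    obtain ⟨x, hx, hx0⟩ := intermediate_value_Icc' Real.pi_pos.le hfc h3
    obtain ⟨c, hc0, -, hc2⟩ := hc x hx
    rw [hx0] at hc2
    exact (mul_ne_zero hc0 (hgg x hx).ne') hc2.symm
  obtain ⟨c, hc0, hc1, hc2⟩ := hc _ GP.pi_mem
  rw [hc2] at hfpi
  have hcp : 0 < c := (pos_iff_pos_of_mul_pos hfpi).2 (hgg _ GP.pi_mem)
  rw [hc1, tot_smul] at g1'
  have h4 : 0 < s * tot (g Real.pi) * (s' * (c * tot (g Real.pi))) := mul_pos g1 g1'
  have h5 : s * tot (g Real.pi) * (s' * (c * tot (g Real.pi))) =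
      (s * s') * (c * (tot (g Real.pi) * tot (g Real.pi))) := by ring
  rw [h5] at h4
  have h6 : 0 < c * (tot (g Real.pi) * tot (g Real.pi)) := by
    refine mul_pos hcp (mul_self_pos.2 ?_)
    intro h7
    rw [h7, mul_zero] at g1
    exact lt_irrefl _ g1
  exact (pos_iff_pos_of_mul_pos h4).2 h6

theorem GP.eps_spec {M : ℝ → Fin m → Fin (m + 1) → ℝ} (h : GP M) : EpsIs M (eps M) := by
  unfold eps
  split_ifs with h1
  · exact h1
  · exact h.exists_eps.resolve_left h1

lemma eps_or (M : ℝ → Fin m → Fin (m + 1) → ℝ) : eps M = 1 ∨ eps M = -1 := by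
  unfold eps
  split_ifs
  · exact Or.inl rfl
  · exact Or.inr rfl

lemma eps_ne (M : ℝ → Fin m → Fin (m + 1) → ℝ) : eps M ≠ 0 := by
  rcases eps_or M with h | h <;> rw [h] <;> norm_num

/-- a sign determines `eps` -/
theorem GP.eps_eq {M : ℝ → Fin m → Fin (m + 1) → ℝ} (h : GP M) {s : ℝ} (hs : EpsIs M s)
    (hs1 : s = 1 ∨ s = -1) : eps M = s := by
  have h1 := h.unique_eps h.eps_spec hs
  rcases eps_or M with h2 | h2 <;> rcases hs1 with h3 | h3 <;> rw [h2, h3] at h1 ⊢ <;>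
    norm_num at h1

private lemma nhdsW_prod {ι : Type*} {l : Filter ι} {P : ι → ℝ → Prop} {t : ℝ} {K : Set ℝ}
    (h : ∀ᶠ p : ι × ℝ in l ×ˢ 𝓝[K] t, P p.1 p.2) :
    {p : ι × ℝ | p.2 ∈ K → P p.1 p.2} ∈ l ×ˢ 𝓝 t := by
  obtain ⟨t1, ht1, t2, ht2, hsub⟩ := mem_prod_iff.1 h
  rw [mem_nhdsWithin_iff_eventually] at ht2
  refine mem_prod_iff.2 ⟨t1, ht1, {x | x ∈ K → x ∈ t2}, ht2, ?_⟩
  rintro ⟨i, x⟩ ⟨hi, hx⟩ hxK
  exact hsub (Set.mk_mem_prod hi (hx hxK))

private lemma all_of_prod {ι : Type*} {l : Filter ι} {P : ι → ℝ → Prop} {K : Set ℝ}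
    (hK : IsCompact K) (h : ∀ t ∈ K, ∀ᶠ p : ι × ℝ in l ×ˢ 𝓝[K] t, P p.1 p.2) :
    ∀ᶠ i in l, ∀ t ∈ K, P i t := by
  have h1 : {p : ι × ℝ | p.2 ∈ K → P p.1 p.2} ∈ l ×ˢ 𝓝ˢ K :=
    hK.mem_prod_nhdsSet_of_forall fun t ht => nhdsW_prod (h t ht)
  obtain ⟨t1, ht1, t2, ht2, hsub⟩ := mem_prod_iff.1 h1
  have hK2 := subset_of_mem_nhdsSet ht2
  filter_upwards [ht1] with i hi t ht
  exact hsub (Set.mk_mem_prod hi (hK2 ht)) ht

private lemma slice {ι α : Type*} [TopologicalSpace α] {l : Filter ι} {f : ι → ℝ → α} {t : ℝ}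
    {K : Set ℝ} (ht : t ∈ K) {y : α}
    (h : Tendsto (fun p : ι × ℝ => f p.1 p.2) (l ×ˢ 𝓝[K] t) (𝓝 y)) :
    Tendsto (fun i => f i t) l (𝓝 y) := by
  have h1 : Tendsto (fun i : ι => (i, t)) l (l ×ˢ 𝓝[K] t) :=
    tendsto_id.prodMk (tendsto_const_pure.mono_right (pure_le_nhdsWithin ht))
  exact h.comp h1

/-- `eps` is locally constant -/
theorem eps_tendsto {ι : Type*} {l : Filter ι} {F : ι → ℝ → Fin m → Fin (m + 1) → ℝ}
    {M : ℝ → Fin m → Fin (m + 1) → ℝ} (hF : ∀ᶠ i in l, GP (F i)) (hM : GP M)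
    (h : ∀ t ∈ Set.Icc 0 Real.pi, Tendsto (fun p : ι × ℝ => F p.1 p.2)
      (l ×ˢ 𝓝[Set.Icc 0 Real.pi] t) (𝓝 (M t))) : ∀ᶠ i in l, eps (F i) = eps M := by
  obtain ⟨g, hg, g0, g1⟩ := hM.eps_spec
  obtain ⟨f, hf⟩ : ∃ f : ι → ℝ → Spn m, f = fun i t => prj (gsq (F i t)) (g t) := ⟨_, rfl⟩
  have hlim : ∀ t ∈ Set.Icc 0 Real.pi, Tendsto (fun p : ι × ℝ => f p.1 p.2)
      (l ×ˢ 𝓝[Set.Icc 0 Real.pi] t) (𝓝 (g t)) := by
    intro t ht
    rw [hf]
    have h1 : Tendsto (fun p : ι × ℝ => gsq (F p.1 p.2)) (l ×ˢ 𝓝[Set.Icc 0 Real.pi] t)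
        (𝓝 (gsq (M t))) := (continuousAt_gsq (hM.li t ht)).tendsto.comp (h t ht)
    have h2 : Tendsto (fun p : ι × ℝ => g p.2) (l ×ˢ 𝓝[Set.Icc 0 Real.pi] t) (𝓝 (g t)) :=
      (hg.cont t ht).tendsto.comp tendsto_snd
    have h3 := (continuous_prj.tendsto (gsq (M t), g t)).comp (h1.prodMk_nhds h2)
    have h4 : prj (gsq (M t)) (g t) = g t := prj_eq (hM.of ht) (hg.mem t ht)
    simp only [h4] at h3
    exact h3
  -- nonvanishing
  have hne : ∀ᶠ i in l, ∀ t ∈ Set.Icc 0 Real.pi, f i t ≠ 0 :=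
    all_of_prod (P := fun i t => f i t ≠ 0) isCompact_Icc fun t ht =>
      (hlim t ht).eventually_ne (hg.ne t ht)
  have e0 : ∀ᶠ i in l, 0 < tot (f i 0) := by
    have h1 : Tendsto (fun i => f i 0) l (𝓝 (g 0)) := slice GP.zero_mem (hlim 0 GP.zero_mem)
    have h2 : Tendsto (fun i => tot (f i 0)) l (𝓝 (tot (g 0))) :=
      (continuous_tot.tendsto (g 0)).comp h1
    exact h2.eventually (lt_mem_nhds g0)
  have e1 : ∀ᶠ i in l, 0 < eps M * tot (f i Real.pi) := by
    have h1 : Tendsto (fun i => f i Real.pi) l (𝓝 (g Real.pi)) :=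
      slice GP.pi_mem (hlim _ GP.pi_mem)
    have h2 : Tendsto (fun i => tot (f i Real.pi)) l (𝓝 (tot (g Real.pi))) :=
      (continuous_tot.tendsto (g Real.pi)).comp h1
    exact (h2.const_mul (eps M)).eventually (lt_mem_nhds g1)
  filter_upwards [hF, hne, e0, e1] with i h1 h2 h3 h4
  refine h1.eps_eq ⟨fun x => f i x, ⟨?_, ?_, ?_⟩, h3, h4⟩ (eps_or M)
  · rw [hf]
    exact cont_prj h1.contq hg.cont
  · rw [hf]
    exact fun x hx => prj_mem (h1.of hx) _
  · exact h2

/-- `eps` is constant on connected families -/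
theorem eps_const {X : Type*} [TopologicalSpace X] {S : Set X} (hS : IsPreconnected S)
    {F : X → ℝ → Fin m → Fin (m + 1) → ℝ}
    (hc : ContinuousOn (fun p : X × ℝ => F p.1 p.2) (S ×ˢ Set.Icc 0 Real.pi))
    (hF : ∀ x ∈ S, GP (F x)) {x y : X} (hx : x ∈ S) (hy : y ∈ S) : eps (F x) = eps (F y) := by
  classical
  have h1 : ContinuousOn (fun x => decide (eps (F x) = 1)) S := by
    intro z hz
    have h2 : ∀ᶠ i in 𝓝[S] z, eps (F i) = eps (F z) := by
      refine eps_tendsto ?_ (hF z hz) fun t ht => ?_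
      · filter_upwards [self_mem_nhdsWithin] with i hi
        exact hF i hi
      · have h3 := hc (z, t) ⟨hz, ht⟩
        unfold ContinuousWithinAt at h3
        rwa [nhdsWithin_prod_eq] at h3
    have h3 : (fun x => decide (eps (F x) = 1)) =ᶠ[𝓝[S] z]
        fun _ => decide (eps (F z) = 1) := by
      filter_upwards [h2] with i hi
      rw [hi]
    exact (tendsto_congr' h3).2 tendsto_const_nhds
  have h2 := hS.constant h1 hx hy
  rw [decide_eq_decide] at h2
  rcases eps_or (F x) with h3 | h3 <;> rcases eps_or (F y) with h4 | h4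
  · rw [h3, h4]
  · exact absurd (h2.1 h3) (by rw [h4]; norm_num)
  · exact absurd (h2.2 h4) (by rw [h3]; norm_num)
  · rw [h3, h4]

end Pool.GTR
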