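import Pool.Agent.GTR.Cl.Cross

/-!
# GTR / Cl / EpsW: the sign of `diag (P_a) Φ`
-/

set_option autoImplicit false

open Finset Filter Topology

noncomputable section

namespace Pool.GTR

variable {m : ℕ}

lemma isGS_std_iff {M : Fin m → Fin (m + 1) → ℝ} : IsGS M stdF ↔
    (∀ j, 0 < M j j.castSucc) ∧
      ∀ (j : Fin m) (i : Fin (m + 1)), j.castSucc < i → M j i = 0 := by
  constructor
  · rintro ⟨-, T, hT, hT0, hM⟩
    have hv : ∀ (j : Fin m) (t : Fin (m + 1)), M j t = ∑ i, T i j * stdF i t := by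
      intro j t
      rw [hM j, Finset.sum_apply]
      rfl
    refine ⟨fun j => ?_, fun j t hjt => ?_⟩
    · rw [hv, sum_eq_single j]
      · unfold stdF
        rw [Pi.single_eq_same, mul_one]
        exact hT j
      · intro i _ hij
        unfold stdF
        rw [Pi.single_eq_of_ne, mul_zero]
        intro h
        exact hij (Fin.castSucc_injective _ h).symm
      · intro hj
        exact absurd (mem_univ _) hj
    · rw [hv]
      refine sum_eq_zero fun i _ => ?_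
      unfold stdF
      by_cases h : t = i.castSucc
      · rw [hT0 i j, zero_mul]
        rw [h] at hjt
        exact Fin.castSucc_lt_castSucc_iff.1 hjt
      · rw [Pi.single_eq_of_ne h, mul_zero]
  · rintro ⟨h1, h2⟩
    exact isGS_std h1 h2

lemma isGS_DM_std {M : Fin m → Fin (m + 1) → ℝ} {c : Fin (m + 1) → ℝ} (hc : ∀ a, 0 < c a)
    (h : IsGS M stdF) : IsGS (DM c M) stdF := by
  rw [isGS_std_iff] at h ⊢
  refine ⟨fun j => mul_pos (hc _) (h.1 j), fun j i hij => ?_⟩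
  show c i * M j i = 0
  rw [h.2 j i hij, mul_zero]

lemma isGS_DM_neg {M : Fin m → Fin (m + 1) → ℝ} {c : Fin (m + 1) → ℝ} (hc : ∀ a, 0 < c a)
    (h : IsGS M (-stdF)) : IsGS (DM c M) (-stdF) := by
  have h1 := h.neg
  rw [neg_neg] at h1
  have h2 := (isGS_DM_std hc h1).neg
  have h3 : -DM c (-M) = DM c M := by
    funext j t
    show -(c t * (-(M j t))) = c t * M j t
    ring
  rwa [h3] at h2

lemma DM_neg_left (c : Fin (m + 1) → ℝ) (M : Fin m → Fin (m + 1) → ℝ) :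
    DM c M = -DM (-c) M := by
  funext j t
  show c t * M j t = -(-c t * M j t)
  ring

lemma isGS_DM_or {M : Fin m → Fin (m + 1) → ℝ} {c : Fin (m + 1) → ℝ}
    (hc : (∀ a, 0 < c a) ∨ ∀ a, c a < 0) (h : IsGS M stdF ∨ IsGS M (-stdF)) :
    IsGS (DM c M) stdF ∨ IsGS (DM c M) (-stdF) := by
  rcases hc with hc | hc
  · rcases h with h | h
    · exact Or.inl (isGS_DM_std hc h)
    · exact Or.inr (isGS_DM_neg hc h)
  · have hc' : ∀ a, 0 < (-c) a := fun a => by
      show 0 < -c a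
      linarith [hc a]
    rw [DM_neg_left c M]
    rcases h with h | h
    · exact Or.inr (isGS_DM_std hc' h).neg
    · have := (isGS_DM_neg hc' h).neg
      rw [neg_neg] at this
      exact Or.inl this

lemma li_DM {M : Fin m → Fin (m + 1) → ℝ} {c : Fin (m + 1) → ℝ} (hc : ∀ a, c a ≠ 0)
    (h : LinearIndependent ℝ M) : LinearIndependent ℝ (DM c M) := by
  rw [Fintype.linearIndependent_iff] at h ⊢
  intro g hg
  refine h g ?_
  funext t
  have h1 := congrFun hg t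
  rw [Finset.sum_apply] at h1 ⊢
  have h2 : ∀ j, (g j • DM c M j) t = c t * (g j • M j) t := by
    intro j
    show g j * (c t * M j t) = c t * (g j * M j t)
    ring
  rw [sum_congr rfl fun j _ => h2 j, ← mul_sum] at h1
  exact (mul_eq_zero.1 h1).resolve_left (hc t)

lemma li_DM_row {M : Fin m → Fin (m + 1) → ℝ} {c : Fin (m + 1) → ℝ} {a : Fin (m + 1)}
    (hc : ∀ b, b ≠ a → c b ≠ 0) (h : LinearIndependent ℝ (fun j => Function.update (M j) a 0)) :
    LinearIndependent ℝ (DM c M) := by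
  rw [Fintype.linearIndependent_iff] at h ⊢
  intro g hg
  refine h g ?_
  funext t
  have h1 := congrFun hg t
  rw [Finset.sum_apply] at h1 ⊢
  by_cases ht : t = a
  · subst ht
    rw [Pi.zero_apply]
    refine sum_eq_zero fun j _ => ?_
    rw [Pi.smul_apply, Function.update_self, smul_zero]
  · have h2 : ∀ j, (g j • DM c M j) t = c t * (g j • Function.update (M j) a 0) t := by
      intro j
      rw [Pi.smul_apply, Pi.smul_apply, Function.update_of_ne ht]
      show g j * (c t * M j t) = c t * (g j * M j t)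
      ring
    rw [sum_congr rfl fun j _ => h2 j, ← mul_sum] at h1
    exact (mul_eq_zero.1 h1).resolve_left (hc t ht)

/-- the rows of `Φ` may be deleted one by one in the interval `(0, b)` -/
def RowOK (Φ : ℝ → Fin m → Fin (m + 1) → ℝ) (b : ℝ) : Prop :=
  ∀ x ∈ Set.Ioo 0 b, ∀ a, LinearIndependent ℝ (fun j => Function.update (Φ x j) a 0)

lemma gp_DM {Φ : ℝ → Fin m → Fin (m + 1) → ℝ} (hΦ : GP Φ) {b : ℝ} (hrow : RowOK Φ b)
    {c : ℝ → Fin (m + 1) → ℝ} (hc : ContinuousOn c (Set.Icc 0 Real.pi))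
    (h1 : ∀ x ∈ Set.Icc 0 Real.pi, (∀ a, c x a ≠ 0) ∨
      (x ∈ Set.Ioo 0 b ∧ ∃ a, ∀ a', a' ≠ a → c x a' ≠ 0))
    (h0 : ∀ a, 0 < c 0 a) (hpi : (∀ a, 0 < c Real.pi a) ∨ ∀ a, c Real.pi a < 0) :
    GP (fun x => DM (c x) (Φ x)) where
  cont := by
    refine continuousOn_pi.2 fun j => continuousOn_pi.2 fun t => ?_
    have e1 : ContinuousOn (fun x => c x t) (Set.Icc 0 Real.pi) :=
      (continuous_apply t).comp_continuousOn hc
    have e2 : ContinuousOn (fun x => Φ x j t) (Set.Icc 0 Real.pi) :=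
      (continuous_apply t).comp_continuousOn ((continuous_apply j).comp_continuousOn hΦ.cont)
    exact e1.mul e2
  li := by
    intro x hx
    rcases h1 x hx with h2 | ⟨hxb, a, ha⟩
    · exact li_DM h2 (hΦ.li x hx)
    · exact li_DM_row ha (hrow x hxb a)
  std0 := isGS_DM_std h0 hΦ.std0
  stdpi := isGS_DM_or hpi hΦ.stdpi

/-- data of a word -/
structure WD (b : ℝ) (N l : ℕ) (i : ℕ → Fin (m + 1)) (z : ℕ → ℝ) (p : ℕ → ℝ → ℝ) : Prop where
  full : ∀ a, cnt i N a = l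
  zpos : ∀ r, r < N → 0 < z r ∧ z r < b
  zmono : ∀ r, r + 1 < N → z r < z (r + 1)
  pcont : ∀ r, r < N → ContinuousOn (p r) (Set.Icc 0 Real.pi)
  ppos : ∀ r, r < N → ∀ x ∈ Set.Icc 0 Real.pi, x < z r → 0 < p r x
  pneg : ∀ r, r < N → ∀ x ∈ Set.Icc 0 Real.pi, z r < x → p r x < 0
  pz : ∀ r, r < N → p r (z r) = 0

/-- the product of the factors of the letter `a` -/
def PP (i : ℕ → Fin (m + 1)) (N : ℕ) (p : ℕ → ℝ → ℝ) (x : ℝ) (a : Fin (m + 1)) : ℝ :=
  ∏ r ∈ (range N).filter (fun r => i r = a), p r x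

section

variable {b : ℝ} {N l : ℕ} {i : ℕ → Fin (m + 1)} {z : ℕ → ℝ} {p : ℕ → ℝ → ℝ}

lemma WD.zlt (h : WD b N l i z p) (r : ℕ) : ∀ s, r < s → s < N → z r < z s := by
  intro s
  induction s with
  | zero => intro h1; omega
  | succ s ih =>
    intro h1 h2
    rcases Nat.lt_succ_iff_lt_or_eq.1 h1 with h3 | h3
    · exact (ih h3 (by omega)).trans (h.zmono s h2)
    · rw [h3]
      exact h.zmono s h2

lemma WD.zne (h : WD b N l i z p) {r s : ℕ} (hr : r < N) (hs : s < N) (hrs : r ≠ s) :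
    z r ≠ z s := by
  rcases lt_or_gt_of_ne hrs with h1 | h1
  · exact (h.zlt r s h1 hs).ne
  · exact (h.zlt s r h1 hr).ne'

lemma WD.pne (h : WD b N l i z p) {r : ℕ} (hr : r < N) {x : ℝ} (hx : x ∈ Set.Icc 0 Real.pi)
    (hne : x ≠ z r) : p r x ≠ 0 := by
  rcases lt_or_gt_of_ne hne with h1 | h1
  · exact (h.ppos r hr x hx h1).ne'
  · exact (h.pneg r hr x hx h1).ne

lemma WD.PPne (h : WD b N l i z p) {x : ℝ} (hx : x ∈ Set.Icc 0 Real.pi) :
    (∀ a, PP i N p x a ≠ 0) ∨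
      (x ∈ Set.Ioo 0 b ∧ ∃ a, ∀ a', a' ≠ a → PP i N p x a' ≠ 0) := by
  by_cases hz : ∃ r, r < N ∧ x = z r
  · obtain ⟨r, hr, hxr⟩ := hz
    right
    refine ⟨hxr ▸ ⟨(h.zpos r hr).1, (h.zpos r hr).2⟩, i r, fun a' ha' => ?_⟩
    unfold PP
    rw [prod_ne_zero_iff]
    intro s hs
    rw [mem_filter, mem_range] at hs
    refine h.pne hs.1 hx ?_
    rw [hxr]
    refine h.zne hr hs.1 ?_
    rintro rfl
    exact ha' hs.2.symm
  · left
    intro a
    unfold PP
    rw [prod_ne_zero_iff]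
    intro s hs
    rw [mem_filter, mem_range] at hs
    exact h.pne hs.1 hx fun h1 => hz ⟨s, hs.1, h1⟩

lemma WD.PPne' (h : WD b N l i z p) (hb : b ≤ Real.pi) {r : ℕ} (hr : r < N) :
    PP i N p (z r) (i r) = 0 ∧ ∀ a, a ≠ i r → PP i N p (z r) a ≠ 0 := by
  have hx : z r ∈ Set.Icc 0 Real.pi := ⟨(h.zpos r hr).1.le, (h.zpos r hr).2.le.trans hb⟩
  refine ⟨prod_eq_zero (mem_filter.2 ⟨mem_range.2 hr, rfl⟩) (h.pz r hr), fun a ha => ?_⟩
  unfold PP
  rw [prod_ne_zero_iff]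
  intro s hs
  rw [mem_filter, mem_range] at hs
  refine h.pne hs.1 hx (h.zne hr hs.1 ?_)
  rintro rfl
  exact ha hs.2.symm

lemma WD.PPcont (h : WD b N l i z p) (a : Fin (m + 1)) :
    ContinuousOn (fun x => PP i N p x a) (Set.Icc 0 Real.pi) := by
  unfold PP
  refine continuousOn_finsetProd _ fun r hr => ?_
  rw [mem_filter, mem_range] at hr
  exact h.pcont r hr.1

lemma WD.PP0 (h : WD b N l i z p) (a : Fin (m + 1)) : 0 < PP i N p 0 a := by
  unfold PP
  refine prod_pos fun r hr => ?_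
  rw [mem_filter, mem_range] at hr
  exact h.ppos r hr.1 0 ⟨le_rfl, Real.pi_pos.le⟩ (h.zpos r hr.1).1

lemma WD.PPpi (h : WD b N l i z p) (hb : b ≤ Real.pi) :
    (∀ a, 0 < PP i N p Real.pi a) ∨ ∀ a, PP i N p Real.pi a < 0 := by
  have key : ∀ a, 0 < (-1 : ℝ) ^ l * PP i N p Real.pi a := by
    intro a
    rw [← h.full a]
    unfold cnt PP
    rw [← prod_const, ← prod_mul_distrib]
    refine prod_pos fun r hr => ?_
    rw [mem_filter, mem_range] at hr
    have := h.pneg r hr.1 Real.pi ⟨Real.pi_pos.le, le_rfl⟩ ((h.zpos r hr.1).2.trans_le hb)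
    linarith
  rcases neg_one_pow_eq_or ℝ l with h1 | h1
  · left
    intro a
    have := key a
    rwa [h1, one_mul] at this
  · right
    intro a
    have := key a
    rw [h1] at this
    linarith

theorem WD.gp (h : WD b N l i z p) {Φ : ℝ → Fin m → Fin (m + 1) → ℝ} (hΦ : GP Φ)
    (hb : b ≤ Real.pi) (hrow : RowOK Φ b) : GP (fun x => DM (PP i N p x) (Φ x)) :=
  gp_DM hΦ hrow (continuousOn_pi.2 fun a => h.PPcont a) (fun _ hx => h.PPne hx) h.PP0
    (h.PPpi hb)

/-- the homotopy from `diag |P| Φ` to `Φ` -/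
theorem WD.abs (h : WD b N l i z p) {Φ : ℝ → Fin m → Fin (m + 1) → ℝ} (hΦ : GP Φ)
    (hb : b ≤ Real.pi) (hrow : RowOK Φ b) :
    GP (fun x => DM (fun a => |PP i N p x a|) (Φ x)) ∧
      eps (fun x => DM (fun a => |PP i N p x a|) (Φ x)) = eps Φ := by
  have hab0 : ∀ a, 0 < |PP i N p 0 a| := fun a => abs_pos.2 (h.PP0 a).ne'
  have hF : ∀ τ ∈ Set.Icc (0 : ℝ) 1,
      GP (fun x => DM (fun a => (1 - τ) * |PP i N p x a| + τ) (Φ x)) := by
    intro τ hτ
    refine gp_DM hΦ hrow (c := fun x a => (1 - τ) * |PP i N p x a| + τ) ?_ ?_ ?_ ?_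
    · refine continuousOn_pi.2 fun a => ?_
      exact (continuousOn_const.mul (h.PPcont a).abs).add continuousOn_const
    · intro x hx
      by_cases h0 : τ = 0
      · rcases h.PPne hx with h1 | ⟨h1, a, h2⟩
        · left
          intro a
          show (1 - τ) * |PP i N p x a| + τ ≠ 0
          rw [h0, sub_zero, one_mul, add_zero]
          exact abs_ne_zero.2 (h1 a)
        · right
          refine ⟨h1, a, fun a' ha' => ?_⟩
          show (1 - τ) * |PP i N p x a'| + τ ≠ 0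
          rw [h0, sub_zero, one_mul, add_zero]
          exact abs_ne_zero.2 (h2 a' ha')
      · left
        intro a
        have h1 : 0 < τ := lt_of_le_of_ne hτ.1 (Ne.symm h0)
        have h2 : 0 ≤ (1 - τ) * |PP i N p x a| := mul_nonneg (by linarith [hτ.2]) (abs_nonneg _)
        show (1 - τ) * |PP i N p x a| + τ ≠ 0
        linarith
    · intro a
      have h2 : 0 ≤ (1 - τ) * |PP i N p 0 a| := mul_nonneg (by linarith [hτ.2]) (abs_nonneg _)
      show 0 < (1 - τ) * |PP i N p 0 a| + τ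
      rcases hτ.1.eq_or_lt with h3 | h3
      · rw [← h3, sub_zero, one_mul, add_zero]
        exact hab0 a
      · linarith
    · left
      intro a
      have h2 : 0 ≤ (1 - τ) * |PP i N p Real.pi a| :=
        mul_nonneg (by linarith [hτ.2]) (abs_nonneg _)
      show 0 < (1 - τ) * |PP i N p Real.pi a| + τ
      rcases hτ.1.eq_or_lt with h3 | h3
      · rw [← h3, sub_zero, one_mul, add_zero]
        refine abs_pos.2 ?_
        rcases h.PPpi hb with h4 | h4
        · exact (h4 a).ne'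
        · exact (h4 a).ne
      · linarith
  have e0 : (fun x => DM (fun a => (1 - (0 : ℝ)) * |PP i N p x a| + 0) (Φ x)) =
      fun x => DM (fun a => |PP i N p x a|) (Φ x) := by
    funext x
    congr 1
    funext a
    ring
  have e1 : (fun x => DM (fun a => (1 - (1 : ℝ)) * |PP i N p x a| + 1) (Φ x)) = Φ := by
    funext x j a
    show ((1 - (1 : ℝ)) * |PP i N p x a| + 1) * Φ x j a = Φ x j a
    ring
  have g0 := hF 0 ⟨le_rfl, zero_le_one⟩
  rw [e0] at g0
  refine ⟨g0, ?_⟩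
  have hcF : ContinuousOn (fun q : ℝ × ℝ =>
      DM (fun a => (1 - q.1) * |PP i N p q.2 a| + q.1) (Φ q.2))
      (Set.Icc 0 1 ×ˢ Set.Icc 0 Real.pi) := by
    refine continuousOn_pi.2 fun j => continuousOn_pi.2 fun a => ?_
    have hmap : Set.MapsTo (Prod.snd : ℝ × ℝ → ℝ) (Set.Icc 0 1 ×ˢ Set.Icc 0 Real.pi)
        (Set.Icc 0 Real.pi) := fun q hq => hq.2
    have c1 : ContinuousOn (fun q : ℝ × ℝ => |PP i N p q.2 a|)
        (Set.Icc 0 1 ×ˢ Set.Icc 0 Real.pi) :=
      ((h.PPcont a).comp continuousOn_snd hmap).abs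
    have c2 : ContinuousOn (fun q : ℝ × ℝ => Φ q.2 j a) (Set.Icc 0 1 ×ˢ Set.Icc 0 Real.pi) :=
      (continuous_apply a).comp_continuousOn ((continuous_apply j).comp_continuousOn
        (hΦ.cont.comp continuousOn_snd hmap))
    have c3 : ContinuousOn (fun q : ℝ × ℝ => q.1) (Set.Icc 0 1 ×ˢ Set.Icc 0 Real.pi) :=
      continuousOn_fst
    exact (((continuousOn_const.sub c3).mul c1).add c3).mul c2
  have key := eps_const (X := ℝ) (S := Set.Icc (0 : ℝ) 1) isPreconnected_Icc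
    (F := fun τ x => DM (fun a => (1 - τ) * |PP i N p x a| + τ) (Φ x)) hcF hF
    (x := 0) (y := 1) ⟨le_rfl, zero_le_one⟩ ⟨zero_le_one, le_rfl⟩
  simp only [e0, e1] at key
  exact key

/-- the sign between the crossings -/
lemma WD.rel (h : WD b N l i z p) {x : ℝ} (hx : x ∈ Set.Icc 0 Real.pi)
    {r : ℕ} (hr : r ≤ N) (h1 : ∀ s, s + 1 = r → z s ≤ x) (h2 : r < N → x ≤ z r)
    (a : Fin (m + 1)) : PP i N p x a = svw i r a * |PP i N p x a| := by
  have hle : ∀ s, s < r → z s ≤ x := by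
    intro s hs
    obtain ⟨r', rfl⟩ : ∃ r', r = r' + 1 := ⟨r - 1, by omega⟩
    have h3 := h1 r' rfl
    rcases Nat.lt_succ_iff_lt_or_eq.1 hs with h4 | h4
    · exact (h.zlt s r' h4 (by omega)).le.trans h3
    · rwa [h4]
  have hge : ∀ s, r ≤ s → s < N → x ≤ z s := by
    intro s hs hsN
    rcases hs.eq_or_lt with h4 | h4
    · rw [← h4]
      exact h2 (by omega)
    · exact (h2 (by omega)).trans (h.zlt r s h4 hsN).le
  have hsgn : ∀ s, s < N → p s x = (if s < r then (-1 : ℝ) else 1) * |p s x| := by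
    intro s hs
    split_ifs with h3
    · have h4 : p s x ≤ 0 := by
        rcases (hle s h3).eq_or_lt with h5 | h5
        · rw [← h5, h.pz s hs]
        · exact (h.pneg s hs x hx h5).le
      rw [abs_of_nonpos h4]
      ring
    · have h4 : 0 ≤ p s x := by
        rcases (hge s (not_lt.1 h3) hs).eq_or_lt with h5 | h5
        · rw [h5, h.pz s hs]
        · exact (h.ppos s hs x hx h5).le
      rw [abs_of_nonneg h4, one_mul]
  have e1 : PP i N p x a = (∏ s ∈ (range N).filter (fun s => i s = a),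
      (if s < r then (-1 : ℝ) else 1)) * |PP i N p x a| := by
    unfold PP
    rw [abs_prod, ← prod_mul_distrib]
    refine prod_congr rfl fun s hs => ?_
    rw [mem_filter, mem_range] at hs
    exact hsgn s hs.1
  have e2 : (∏ s ∈ (range N).filter (fun s => i s = a), (if s < r then (-1 : ℝ) else 1)) =
      svw i r a := by
    rw [svw_cnt, prod_ite, prod_const_one, mul_one, prod_const]
    unfold cnt
    congr 2
    ext s
    simp only [mem_filter, mem_range]
    constructor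
    · rintro ⟨⟨-, h3⟩, h4⟩
      exact ⟨h4, h3⟩
    · rintro ⟨h4, h3⟩
      exact ⟨⟨by omega, h3⟩, h4⟩
  rw [e2] at e1
  exact e1

end

lemma IsGS.row {M q : Fin m → Fin (m + 1) → ℝ} (h : IsGS M q) {a : Fin (m + 1)}
    (ha : ∀ j, M j a = 0) (j : Fin m) : q j a = 0 := by
  have h1 := h.rc a
  have h2 : (fun j => Pool.GTR.rc a (M j)) = M := funext fun j => rc_eq (ha j)
  rw [h2] at h1
  have h3 := congrFun (congrFun (h.unique h1) j) a
  have h4 : Pool.GTR.rc a (q j) a = -q j a := by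
    unfold Pool.GTR.rc
    rw [if_pos rfl]
  have h5 : q j a = -q j a := h3.trans h4
  linarith

/-- the constant `κ a` -/
theorem exists_kapW {Φ : ℝ → Fin m → Fin (m + 1) → ℝ} (hΦ : GP Φ) {b : ℝ} (hb0 : 0 < b)
    (hb : b ≤ Real.pi) (hrow : RowOK Φ b) (a : Fin (m + 1)) :
    ∃ κ : ℝ, (κ = 1 ∨ κ = -1) ∧ ∀ x ∈ Set.Ioo 0 b, ∀ c : Fin (m + 1) → ℝ, c a = 0 →
      (∀ a', a' ≠ a → 0 < c a') → KapIs a (gsq (DM c (Φ x))) κ := by
  obtain ⟨x0, hx0⟩ : ∃ x0, x0 = b / 2 := ⟨_, rfl⟩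
  have hx0b : x0 ∈ Set.Ioo 0 b := by
    rw [hx0]
    exact ⟨by linarith, by linarith⟩
  obtain ⟨c0, hc0⟩ : ∃ c0 : Fin (m + 1) → ℝ, c0 = Function.update (fun _ => (1 : ℝ)) a 0 := ⟨_, rfl⟩
  have hc0a : c0 a = 0 := by rw [hc0, Function.update_self]
  have hc0b : ∀ a', a' ≠ a → 0 < c0 a' := by
    intro a' ha'
    rw [hc0, Function.update_of_ne ha']
    exact zero_lt_one
  have hli : ∀ x ∈ Set.Ioo 0 b, ∀ c : Fin (m + 1) → ℝ, (∀ a', a' ≠ a → 0 < c a') →
      LinearIndependent ℝ (DM c (Φ x)) := by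
    intro x hx c hc
    exact li_DM_row (fun a' ha' => (hc a' ha').ne') (hrow x hx a)
  have hz : ∀ x ∈ Set.Ioo 0 b, ∀ c : Fin (m + 1) → ℝ, c a = 0 → (∀ a', a' ≠ a → 0 < c a') →
      ∀ j, gsq (DM c (Φ x)) j a = 0 := by
    intro x hx c hca hc
    refine (gsq_isGS (hli x hx c hc)).row fun j => ?_
    show c a * Φ x j a = 0
    rw [hca, zero_mul]
  obtain ⟨κ, hκ1, hκ⟩ := exists_kap (gsq_isGS (hli x0 hx0b c0 hc0b)).1 (hz x0 hx0b c0 hc0a hc0b)
  refine ⟨κ, hκ1, fun x hx c hca hc => ?_⟩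
  -- the path
  obtain ⟨X, hX⟩ : ∃ X : ℝ → ℝ, X = fun τ => (1 - τ) * x0 + τ * x := ⟨_, rfl⟩
  obtain ⟨C, hC⟩ : ∃ C : ℝ → Fin (m + 1) → ℝ, C = fun τ t => (1 - τ) * c0 t + τ * c t := ⟨_, rfl⟩
  have hXm : ∀ τ ∈ Set.Icc (0 : ℝ) 1, X τ ∈ Set.Ioo 0 b := by
    intro τ hτ
    rw [hX]
    have := (convex_Ioo (0 : ℝ) b) hx0b hx (by linarith [hτ.2] : (0 : ℝ) ≤ 1 - τ) hτ.1
      (by ring : 1 - τ + τ = 1)
    simpa using this
  have hCa : ∀ τ, C τ a = 0 := by
    intro τ
    rw [hC]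
    show (1 - τ) * c0 a + τ * c a = 0
    rw [hc0a, hca]
    ring
  have hCb : ∀ τ ∈ Set.Icc (0 : ℝ) 1, ∀ a', a' ≠ a → 0 < C τ a' := by
    intro τ hτ a' ha'
    rw [hC]
    show 0 < (1 - τ) * c0 a' + τ * c a'
    have h1 := hc0b a' ha'
    have h2 := hc a' ha'
    rcases hτ.1.eq_or_lt with h3 | h3
    · rw [← h3]
      linarith
    · have h4 := mul_pos h3 h2
      have h5 : 0 ≤ (1 - τ) * c0 a' := mul_nonneg (by linarith [hτ.2]) h1.le
      linarith
  have hcM : ContinuousOn (fun τ => DM (C τ) (Φ (X τ))) (Set.Icc 0 1) := by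
    refine continuousOn_pi.2 fun j => continuousOn_pi.2 fun t => ?_
    have hXc : ContinuousOn X (Set.Icc 0 1) := by
      rw [hX]
      fun_prop
    have e1 : ContinuousOn (fun τ => C τ t) (Set.Icc 0 1) := by
      rw [hC]
      fun_prop
    have e2 : ContinuousOn (fun τ => Φ (X τ) j t) (Set.Icc 0 1) :=
      (continuous_apply t).comp_continuousOn ((continuous_apply j).comp_continuousOn
        (hΦ.cont.comp hXc fun τ hτ => ⟨(hXm τ hτ).1.le, (hXm τ hτ).2.le.trans hb⟩))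
    exact e1.mul e2
  have hcq : ContinuousOn (fun τ => gsq (DM (C τ) (Φ (X τ)))) (Set.Icc 0 1) := by
    intro τ hτ
    exact ContinuousAt.comp_continuousWithinAt (f := fun τ => DM (C τ) (Φ (X τ)))
      (continuousAt_gsq (hli _ (hXm τ hτ) _ (hCb τ hτ))) (hcM τ hτ)
  have e0 : DM (C 0) (Φ (X 0)) = DM c0 (Φ x0) := by
    have h1 : C 0 = c0 := by
      rw [hC]
      funext t
      ring
    have h2 : X 0 = x0 := by
      rw [hX]
      ring
    rw [h1, h2]
  have e1 : DM (C 1) (Φ (X 1)) = DM c (Φ x) := by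
    have h1 : C 1 = c := by
      rw [hC]
      funext t
      ring
    have h2 : X 1 = x := by
      rw [hX]
      ring
    rw [h1, h2]
  have key := kap_path (i := a) (q := fun τ => gsq (DM (C τ) (Φ (X τ)))) (a := 0) (b := 1)
    zero_le_one hcq (fun τ hτ => (gsq_isGS (hli _ (hXm τ hτ) _ (hCb τ hτ))).1)
    (fun τ hτ => hz _ (hXm τ hτ) _ (hCa τ) (hCb τ hτ)) (κ := κ) (by
      simp only [e0]
      exact hκ)
  simp only [e1] at key
  exact key

theorem WD.xd {b : ℝ} {N l : ℕ} {i : ℕ → Fin (m + 1)} {z : ℕ → ℝ} {p : ℕ → ℝ → ℝ}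
    (h : WD b N l i z p) {Φ : ℝ → Fin m → Fin (m + 1) → ℝ} (hΦ : GP Φ)
    (hb : b ≤ Real.pi) (hrow : RowOK Φ b) {κ : Fin (m + 1) → ℝ}
    (hκ : ∀ a, (κ a = 1 ∨ κ a = -1) ∧ ∀ x ∈ Set.Ioo 0 b, ∀ c : Fin (m + 1) → ℝ, c a = 0 →
      (∀ a', a' ≠ a → 0 < c a') → KapIs a (gsq (DM c (Φ x))) (κ a)) :
    XD (fun x => DM (fun a => |PP i N p x a|) (Φ x)) (fun x => DM (PP i N p x) (Φ x)) N i z κ where
  hA := (h.abs hΦ hb hrow).1
  hB := h.gp hΦ hb hrow
  zpos := fun r hr => ⟨(h.zpos r hr).1, (h.zpos r hr).2.trans_le hb⟩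
  zmono := h.zmono
  rel := by
    intro r hr x hx h1 h2
    funext j t
    show PP i N p x t * Φ x j t = svw i r t * (|PP i N p x t| * Φ x j t)
    rw [← mul_assoc, ← h.rel hx hr h1 h2 t]
  kap := by
    intro r hr
    have h1 := h.PPne' hb hr
    refine (hκ (i r)).2 (z r) ⟨(h.zpos r hr).1, (h.zpos r hr).2⟩ _ ?_ ?_
    · show |PP i N p (z r) (i r)| = 0
      rw [h1.1, abs_zero]
    · intro a ha
      exact abs_pos.2 (h1.2 a ha)
  kap1 := fun a => (hκ a).1

/-- MAIN THEOREM: the sign of `diag (P_a) Φ` is the sign of the word, up to a constant -/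
theorem epsW {Φ : ℝ → Fin m → Fin (m + 1) → ℝ} (hΦ : GP Φ) {b : ℝ} (hb0 : 0 < b)
    (hb : b ≤ Real.pi) (hrow : RowOK Φ b) {N l : ℕ} {i i' : ℕ → Fin (m + 1)} {z z' : ℕ → ℝ}
    {p p' : ℕ → ℝ → ℝ} (h : WD b N l i z p) (h' : WD b N l i' z' p') :
    eps (fun x => DM (PP i N p x) (Φ x)) * sgw i N =
      eps (fun x => DM (PP i' N p' x) (Φ x)) * sgw i' N := by
  choose κ hκ using exists_kapW hΦ hb0 hb hrow
  have hA := h.abs hΦ hb hrow
  have hA' := h'.abs hΦ hb hrow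
  refine XD.two (h.xd hΦ hb hrow hκ) (h'.xd hΦ hb hrow hκ) ?_ (hA.2.trans hA'.2.symm) ?_
  · funext a
    rw [h.full a, h'.full a]
  · have hpos : ∀ {i : ℕ → Fin (m + 1)} {z : ℕ → ℝ} {p : ℕ → ℝ → ℝ}, WD b N l i z p →
        ∀ a, 0 < |PP i N p Real.pi a| := by
      intro i z p h a
      refine abs_pos.2 ?_
      rcases h.PPpi hb with h4 | h4
      · exact (h4 a).ne'
      · exact (h4 a).ne
    rcases hΦ.stdpi with h1 | h1
    · exact ⟨_, isGS_DM_std (hpos h) h1, isGS_DM_std (hpos h') h1⟩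
    · exact ⟨_, isGS_DM_neg (hpos h) h1, isGS_DM_neg (hpos h') h1⟩

/-- Gram-Schmidt frames do not change under right multiplication by triangular matrices with
positive diagonal -/
lemma IsGS.triangular {M q : Fin m → Fin (m + 1) → ℝ} (h : IsGS M q) {R : Fin m → Fin m → ℝ}
    (hR : ∀ j, 0 < R j j) (hR0 : ∀ i j, j < i → R i j = 0) :
    IsGS (fun j => ∑ i, R i j • M i) q := by
  obtain ⟨hq, T, hT, hT0, hM⟩ := h
  refine ⟨hq, fun s j => ∑ i, T s i * R i j, fun j => ?_, fun s j hsj => ?_, fun j => ?_⟩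
  · show 0 < ∑ i, T j i * R i j
    rw [sum_eq_single j]
    · exact mul_pos (hT j) (hR j)
    · intro i _ hij
      rcases lt_or_gt_of_ne hij with h1 | h1
      · rw [hT0 j i h1, zero_mul]
      · rw [hR0 i j h1, mul_zero]
    · intro hj
      exact absurd (mem_univ _) hj
  · show ∑ i, T s i * R i j = 0
    refine sum_eq_zero fun i _ => ?_
    by_cases h1 : j < i
    · rw [hR0 i j h1, mul_zero]
    · rw [hT0 s i (lt_of_le_of_lt (not_lt.1 h1) hsj), zero_mul]
  · show ∑ i, R i j • M i = ∑ s, (∑ i, T s i * R i j) • q s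
    have h1 : ∀ i, R i j • M i = ∑ s, (T s i * R i j) • q s := by
      intro i
      rw [hM i, smul_sum]
      refine sum_congr rfl fun s _ => ?_
      rw [smul_smul, mul_comm]
    rw [sum_congr rfl fun i _ => h1 i, sum_comm]
    refine sum_congr rfl fun s _ => ?_
    rw [sum_smul]

end Pool.GTR
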