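import Pool.Agent.GTR.Cl.Sect

/-!
# GTR / Cl / GS: Gram-Schmidt frames

`IsGS M q`: `q` is the Gram-Schmidt frame of the `m` vectors `M j` of `ℝ^(m+1)`.
-/

set_option autoImplicit false

open Finset Filter Topology InnerProductSpace

noncomputable section

namespace Pool.GTR

variable {m : ℕ}

/-- `q` is the Gram-Schmidt frame of `M` -/
def IsGS (M q : Fin m → Fin (m + 1) → ℝ) : Prop :=
  OF q ∧ ∃ T : Fin m → Fin m → ℝ, (∀ j, 0 < T j j) ∧ (∀ i j, j < i → T i j = 0) ∧
    ∀ j, M j = ∑ i, T i j • q i

lemma OF.inner_sum {q : Fin m → Fin (m + 1) → ℝ} (hq : OF q) (i : Fin m) (c : Fin m → ℝ) :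
    ∑ t, q i t * (∑ j, c j • q j) t = c i := by
  have h1 : ∀ t, q i t * (∑ j, c j • q j) t = ∑ j, c j * (q i t * q j t) := by
    intro t
    rw [Finset.sum_apply, mul_sum]
    refine sum_congr rfl fun j _ => ?_
    rw [Pi.smul_apply, smul_eq_mul]
    ring
  rw [sum_congr rfl fun t _ => h1 t, sum_comm]
  have h2 : ∀ j, ∑ t, c j * (q i t * q j t) = c j * if i = j then 1 else 0 := by
    intro j
    rw [← mul_sum, hq i j]
  rw [sum_congr rfl fun j _ => h2 j]
  simp

/-- the Gram-Schmidt frame is unique -/
lemma IsGS.unique {M q q' : Fin m → Fin (m + 1) → ℝ} (h : IsGS M q) (h' : IsGS M q') :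
    q = q' := by
  obtain ⟨hq, T, hT, hT0, hM⟩ := h
  obtain ⟨hq', T', hT', hT0', hM'⟩ := h'
  have key : ∀ n : ℕ, ∀ j : Fin m, j.val < n → q j = q' j := by
    intro n
    induction n with
    | zero => intro j hj; omega
    | succ n ih =>
      intro j hj
      have hlt : ∀ i : Fin m, i < j → q i = q' i := fun i hi => ih i (by
        have : i.val < j.val := hi
        omega)
      -- coefficients below the diagonal agree
      have hc : ∀ i : Fin m, i < j → T i j = T' i j := by
        intro i hi
        have h1 := hq.inner_sum i (fun i => T i j)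
        have h2 := hq'.inner_sum i (fun i => T' i j)
        rw [← hM j] at h1
        rw [← hM' j, ← hlt i hi] at h2
        rw [← h1, ← h2]
      have hs : ∀ (S : Fin m → Fin m → ℝ) (r : Fin m → Fin (m + 1) → ℝ),
          (∀ i j, j < i → S i j = 0) → ∑ i, S i j • r i = S j j • r j +
            ∑ i ∈ univ.filter (· < j), S i j • r i := by
        intro S r hS
        rw [← sum_filter_add_sum_filter_not univ (· < j)]
        refine (add_comm _ _).trans ?_
        congr 1
        rw [sum_eq_single j]
        · intro i hi hij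
          rw [mem_filter] at hi
          have : j < i := lt_of_le_of_ne (not_lt.1 hi.2) (Ne.symm hij)
          rw [hS i j this, zero_smul]
        · intro hj
          exact absurd (by simp) hj
      have e1 := hM j
      have e2 := hM' j
      rw [hs T q hT0] at e1
      rw [hs T' q' hT0'] at e2
      have e3 : ∑ i ∈ univ.filter (· < j), T i j • q i =
          ∑ i ∈ univ.filter (· < j), T' i j • q' i := by
        refine sum_congr rfl fun i hi => ?_
        rw [mem_filter] at hi
        rw [hc i hi.2, hlt i hi.2]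
      rw [e3] at e1
      rw [e1] at e2
      have e4 : T j j • q j = T' j j • q' j := add_right_cancel e2
      -- norms
      have n1 : ∑ t, (T j j • q j) t * (T j j • q j) t = T j j ^ 2 := by
        have : ∀ t, (T j j • q j) t * (T j j • q j) t = T j j ^ 2 * (q j t * q j t) := by
          intro t
          rw [Pi.smul_apply, smul_eq_mul]
          ring
        rw [sum_congr rfl fun t _ => this t, ← mul_sum, hq j j, if_pos rfl, mul_one]
      have n2 : ∑ t, (T' j j • q' j) t * (T' j j • q' j) t = T' j j ^ 2 := by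
        have : ∀ t, (T' j j • q' j) t * (T' j j • q' j) t = T' j j ^ 2 * (q' j t * q' j t) := by
          intro t
          rw [Pi.smul_apply, smul_eq_mul]
          ring
        rw [sum_congr rfl fun t _ => this t, ← mul_sum, hq' j j, if_pos rfl, mul_one]
      rw [e4] at n1
      rw [n2] at n1
      have e5 : T j j = T' j j := by
        have h1 := hT j
        have h2 := hT' j
        exact (pow_left_inj₀ h2.le h1.le two_ne_zero).1 n1 |>.symm
      rw [← e5] at e4
      exact smul_right_injective _ (hT j).ne' e4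
  funext j
  exact key m j j.2

lemma IsGS.neg {M q : Fin m → Fin (m + 1) → ℝ} (h : IsGS M q) : IsGS (-M) (-q) := by
  obtain ⟨hq, T, hT, hT0, hM⟩ := h
  refine ⟨?_, T, hT, hT0, fun j => ?_⟩
  · intro i j
    have := hq i j
    simpa using this
  · rw [Pi.neg_apply, hM j, ← sum_neg_distrib]
    refine sum_congr rfl fun i _ => ?_
    rw [Pi.neg_apply, smul_neg]

/-- Gram-Schmidt commutes with orthogonal maps -/
lemma IsGS.map {M q : Fin m → Fin (m + 1) → ℝ} (h : IsGS M q)
    (R : (Fin (m + 1) → ℝ) →ₗ[ℝ] (Fin (m + 1) → ℝ))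
    (hR : ∀ v w, ∑ t, R v t * R w t = ∑ t, v t * w t) :
    IsGS (fun j => R (M j)) (fun j => R (q j)) := by
  obtain ⟨hq, T, hT, hT0, hM⟩ := h
  refine ⟨fun i j => ?_, T, hT, hT0, fun j => ?_⟩
  · rw [hR, hq]
  · show R (M j) = ∑ i, T i j • R (q i)
    rw [hM j, map_sum]
    exact sum_congr rfl fun i _ => by rw [map_smul]

/-- triangular matrices with positive diagonal have the standard frame -/
lemma isGS_std {M : Fin m → Fin (m + 1) → ℝ} (hd : ∀ j, 0 < M j j.castSucc)
    (h0 : ∀ (j : Fin m) (i : Fin (m + 1)), j.castSucc < i → M j i = 0) : IsGS M stdF := by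
  refine ⟨?_, fun i j => M j i.castSucc, hd, fun i j hij => h0 j _ ?_, fun j => ?_⟩
  · intro j j'
    unfold stdF
    rw [sum_eq_single j.castSucc]
    · by_cases h : j = j'
      · subst h
        simp
      · have h2 : j.castSucc ≠ j'.castSucc := fun h3 => h (Fin.castSucc_injective m h3)
        simp [h, h2]
    · intro t _ ht
      rw [Pi.single_eq_of_ne ht, zero_mul]
    · simp
  · exact Fin.castSucc_lt_castSucc_iff.2 hij
  · funext t
    rw [Finset.sum_apply]
    simp only [Pi.smul_apply, smul_eq_mul]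
    unfold stdF
    by_cases ht : t = Fin.last m
    · rw [ht, h0 j _ (Fin.castSucc_lt_last j)]
      symm
      refine sum_eq_zero fun i _ => ?_
      rw [Pi.single_eq_of_ne (Fin.castSucc_lt_last i).ne', mul_zero]
    · obtain ⟨a, rfl⟩ : ∃ a : Fin m, a.castSucc = t := ⟨t.castPred ht, Fin.castSucc_castPred t ht⟩
      rw [sum_eq_single a]
      · simp
      · intro b _ hb
        rw [Pi.single_eq_of_ne (fun h => hb (Fin.castSucc_injective m h).symm), mul_zero]
      · simp

/-! ### existence and continuity -/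

/-- the vectors in Euclidean space -/
def toE (M : Fin m → Fin (m + 1) → ℝ) : Fin m → EuclideanSpace ℝ (Fin (m + 1)) := fun j =>
  WithLp.toLp 2 (M j)

/-- the Gram-Schmidt frame -/
def gsq (M : Fin m → Fin (m + 1) → ℝ) : Fin m → Fin (m + 1) → ℝ := fun j =>
  WithLp.ofLp (gramSchmidtNormed ℝ (toE M) j)

lemma toE_li {M : Fin m → Fin (m + 1) → ℝ} (h : LinearIndependent ℝ M) :
    LinearIndependent ℝ (toE M) :=
  h.map' (WithLp.linearEquiv 2 ℝ (Fin (m + 1) → ℝ)).symm.toLinearMap
    (LinearEquiv.ker (WithLp.linearEquiv 2 ℝ (Fin (m + 1) → ℝ)).symm)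

lemma inner_toLp (v w : EuclideanSpace ℝ (Fin (m + 1))) :
    inner ℝ v w = ∑ t, WithLp.ofLp v t * WithLp.ofLp w t := by
  rw [PiLp.inner_apply]
  refine sum_congr rfl fun t _ => ?_
  simp [mul_comm]

theorem gsq_isGS {M : Fin m → Fin (m + 1) → ℝ} (h : LinearIndependent ℝ M) :
    IsGS M (gsq M) := by
  have hE := toE_li h
  have ho := gramSchmidtNormed_orthonormal (𝕜 := ℝ) hE
  refine ⟨?_, fun i j => if i < j then inner ℝ (gramSchmidtNormed ℝ (toE M) i) (toE M j) else
    if i = j then ‖gramSchmidt ℝ (toE M) j‖ else 0, ?_, ?_, ?_⟩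
  · intro i j
    have h1 := (orthonormal_iff_ite.1 ho) i j
    rw [inner_toLp] at h1
    exact h1
  · intro j
    simp only [lt_irrefl, if_false, if_true]
    exact norm_pos_iff.2 (gramSchmidt_ne_zero j hE)
  · intro i j hij
    beta_reduce
    rw [if_neg (not_lt.2 hij.le), if_neg hij.ne']
  · intro j
    have h1 := gramSchmidt_def'' ℝ (toE M) j
    have h2 : ∀ i, gramSchmidt ℝ (toE M) i =
        ‖gramSchmidt ℝ (toE M) i‖ • gramSchmidtNormed ℝ (toE M) i := by
      intro i
      unfold gramSchmidtNormed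
      rw [smul_smul]
      have h3 : ‖gramSchmidt ℝ (toE M) i‖ ≠ 0 := norm_ne_zero_iff.2 (gramSchmidt_ne_zero i hE)
      have h4 : ‖gramSchmidt ℝ (toE M) i‖ * ((‖gramSchmidt ℝ (toE M) i‖ : ℝ) : ℝ)⁻¹ = 1 :=
        mul_inv_cancel₀ h3
      simp only [RCLike.ofReal_real_eq_id, id_eq]
      rw [h4, one_smul]
    have h5 : toE M j = ∑ i, (if i < j then
        inner ℝ (gramSchmidtNormed ℝ (toE M) i) (toE M j) else
        if i = j then ‖gramSchmidt ℝ (toE M) j‖ else 0) • gramSchmidtNormed ℝ (toE M) i := by
      rw [← sum_filter_add_sum_filter_not univ (· < j)]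
      refine Eq.trans ?_ (add_comm _ _)
      conv_lhs => rw [h1]
      congr 1
      · rw [sum_eq_single j]
        · rw [if_neg (lt_irrefl j), if_pos rfl]
          exact h2 j
        · intro i hi hij
          rw [mem_filter] at hi
          rw [if_neg hi.2, if_neg hij, zero_smul]
        · intro hj
          exact absurd (by simp) hj
      · have e1 : univ.filter (· < j) = Iio j := by
          ext x
          simp
        rw [e1]
        refine sum_congr rfl fun i hi => ?_
        rw [if_pos (mem_Iio.1 hi)]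
        conv_lhs => rw [h2 i]
        rw [inner_smul_left, smul_smul]
        congr 1
        have h3 : ‖gramSchmidt ℝ (toE M) i‖ ≠ 0 := norm_ne_zero_iff.2 (gramSchmidt_ne_zero i hE)
        have h6 : ‖‖gramSchmidt ℝ (toE M) i‖ • gramSchmidtNormed ℝ (toE M) i‖ =
            ‖gramSchmidt ℝ (toE M) i‖ := by rw [← h2 i]
        simp only [RCLike.ofReal_real_eq_id, id_eq, conj_trivial]
        rw [h6]
        field_simp
    have h6 := congrArg (WithLp.ofLp) h5
    rw [WithLp.ofLp_sum] at h6
    simp only [WithLp.ofLp_smul] at h6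
    exact h6

lemma continuous_toE : Continuous (toE (m := m)) := by
  refine continuous_pi fun j => ?_
  exact (PiLp.continuous_toLp 2 _).comp (continuous_apply j)

lemma continuousAt_gs {M : Fin m → Fin (m + 1) → ℝ} (h : LinearIndependent ℝ M) (n : ℕ) :
    ∀ j : Fin m, j.val < n → ContinuousAt (fun M => gramSchmidt ℝ (toE M) j) M := by
  have hE := toE_li h
  induction n with
  | zero => intro j hj; omega
  | succ n ih =>
    intro j hj
    have h1 : (fun M => gramSchmidt ℝ (toE (m := m) M) j) = fun M => toE M j - ∑ i ∈ Iio j,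
        (inner ℝ (gramSchmidt ℝ (toE M) i) (toE M j) / (‖gramSchmidt ℝ (toE M) i‖) ^ 2) •
          gramSchmidt ℝ (toE M) i := by
      funext M
      rw [eq_sub_iff_add_eq]
      exact (gramSchmidt_def'' ℝ (toE M) j).symm
    rw [h1]
    have h2 : ContinuousAt (fun M => toE (m := m) M j) M :=
      ((continuous_apply j).comp continuous_toE).continuousAt
    refine h2.sub (tendsto_finsetSum _ fun i hi => ?_)
    have hij : i < j := Finset.mem_Iio.1 hi
    have hij2 : i.val < j.val := hij
    have h3 : ContinuousAt (fun M => gramSchmidt ℝ (toE (m := m) M) i) M := ih i (by omega)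
    have h4 : ‖gramSchmidt ℝ (toE M) i‖ ^ 2 ≠ 0 :=
      pow_ne_zero 2 (norm_ne_zero_iff.2 (gramSchmidt_ne_zero i hE))
    exact ((ContinuousAt.inner (𝕜 := ℝ) h3 h2).div (h3.norm.pow 2) h4).smul h3

theorem continuousAt_gsq {M : Fin m → Fin (m + 1) → ℝ} (h : LinearIndependent ℝ M) :
    ContinuousAt gsq M := by
  have hE := toE_li h
  refine continuousAt_pi.2 fun j => ?_
  have h1 := continuousAt_gs h m j j.2
  have h2 : ‖gramSchmidt ℝ (toE M) j‖ ≠ 0 := norm_ne_zero_iff.2 (gramSchmidt_ne_zero j hE)
  have h3 : ContinuousAt (fun M => gramSchmidtNormed ℝ (toE (m := m) M) j) M :=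
    (h1.norm.inv₀ h2).smul h1
  exact (PiLp.continuous_ofLp 2 _).continuousAt.comp h3

end Pool.GTR
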