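import Pool.Agent.GTR.Cl.Ops

/-!
# GTR / Cl / Line: the line `L(q)` of an orthonormal frame

`OF q`: `q : Fin m → ℝ^(m+1)` orthonormal.  `Lq q = {g even : q_j g = g e_j for all j < m}` is a line.
-/

set_option autoImplicit false

open Finset

noncomputable section

namespace Pool.GTR

variable {m : ℕ}

/-- orthonormal frame of `m` vectors in `ℝ^(m+1)` -/
def OF (q : Fin m → Fin (m + 1) → ℝ) : Prop := ∀ i j, ∑ t, q i t * q j t = if i = j then 1 else 0

/-- the line of the frame -/
def Lq (q : Fin m → Fin (m + 1) → ℝ) (g : Spn m) : Prop :=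
  Even' g ∧ ∀ j : Fin m, lv (q j) g = eR j.castSucc g

/-- `L` is a line -/
def IsLine (L : Spn m → Prop) : Prop := ∃ g, L g ∧ g ≠ 0 ∧ ∀ g', L g' → ∃ c : ℝ, g' = c • g

lemma Lq.smul {q : Fin m → Fin (m + 1) → ℝ} {g : Spn m} (h : Lq q g) (c : ℝ) : Lq q (c • g) := by
  refine ⟨h.1.smul c, fun j => ?_⟩
  rw [map_smul, map_smul, h.2 j]

/-- the standard frame -/
def stdF (j : Fin m) : Fin (m + 1) → ℝ := Pi.single j.castSucc 1

/-- the unit -/
def one' : Spn m := Pi.single ∅ 1

lemma last_anti (j : Fin m) (g : Spn m) :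
    eR j.castSucc (eR (Fin.last m) g) = -eR (Fin.last m) (eR j.castSucc g) :=
  eR_anti (Fin.castSucc_lt_last j).ne g

/-- even elements which commute with `e_j` vanish on the sets containing `j` -/
lemma comm_std {g : Spn m} (hg : Even' g) {j : Fin (m + 1)} (h : eL j g = eR j g)
    {S : Finset (Fin (m + 1))} (hS : j ∈ S) : g S = 0 := by
  by_contra hne
  have h1 := congrFun h (symmDiff S {j})
  rw [eL_apply, eR_apply, sd_sd] at h1
  have h2 := mul_right_cancel₀ hne h1
  rw [sg_symm, sg_symm, if_neg (lt_irrefl j), if_neg (lt_irrefl j)] at h2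
  -- the product of the two signs is the sign of `S \ {j}`
  have h3 : sg (· < j) S * sg (j < ·) S = -(-1) ^ S.card := by
    have e1 : S = insert j (S.filter (· < j) ∪ S.filter (j < ·)) := by
      ext x
      simp only [mem_insert, mem_union, mem_filter]
      constructor
      · intro hx
        rcases lt_trichotomy x j with h4 | h4 | h4
        · exact Or.inr (Or.inl ⟨hx, h4⟩)
        · exact Or.inl h4
        · exact Or.inr (Or.inr ⟨hx, h4⟩)
      · rintro (h4 | h4 | h4)
        · rw [h4]
          exact hS
        · exact h4.1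
        · exact h4.1
    have e2 : j ∉ S.filter (· < j) ∪ S.filter (j < ·) := by
      simp
    have e3 : Disjoint (S.filter (· < j)) (S.filter (j < ·)) := by
      rw [Finset.disjoint_left]
      intro x hx hx2
      rw [mem_filter] at hx hx2
      exact absurd hx.2 (not_lt.2 hx2.2.le)
    have e4 : S.card = (S.filter (· < j)).card + (S.filter (j < ·)).card + 1 := by
      conv_lhs => rw [e1]
      rw [card_insert_of_notMem e2, card_union_of_disjoint e3]
    rw [e4, pow_succ, pow_add]
    unfold sg
    ring
  have h4 : (-1 : ℝ) ^ S.card = 1 := by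
    rcases sgn_card S with h5 | h5
    · exact h5
    · exact absurd (hg S h5) hne
  rw [h2, sg_sq, h4] at h3
  norm_num at h3

lemma lq_std : Lq (m := m) stdF one' := by
  refine ⟨fun S hS => ?_, fun j => ?_⟩
  · unfold one'
    have : S ≠ ∅ := by
      rintro rfl
      norm_num at hS
    rw [Pi.single_eq_of_ne this]
  · unfold stdF
    rw [lv_single]
    funext S
    rw [eL_apply, eR_apply]
    unfold one'
    by_cases h : symmDiff S {j.castSucc} = ∅
    · have h2 : S = {j.castSucc} := by
        have := sd_sd S j.castSucc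
        rw [h] at this
        rw [← this]
        simp
      rw [h2]
      unfold sg
      rw [filter_singleton, filter_singleton, if_neg (lt_irrefl _)]
    · rw [Pi.single_eq_of_ne h, mul_zero, mul_zero]

lemma line_std : IsLine (Lq (m := m) stdF) := by
  refine ⟨one', lq_std, ?_, ?_⟩
  · intro h
    have := congrFun h ∅
    simp [one'] at this
  · intro g hg
    refine ⟨g ∅, ?_⟩
    funext S
    by_cases hS : S = ∅
    · subst hS
      simp [one']
    · have e1 : ((g ∅) • (one' : Spn m)) S = 0 := by
        simp [one', hS]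
      rw [e1]
      obtain ⟨t, ht⟩ := nonempty_iff_ne_empty.2 hS
      by_cases hj : ∃ j : Fin m, j.castSucc ∈ S
      · obtain ⟨j, hj⟩ := hj
        refine comm_std hg.1 (j := j.castSucc) ?_ hj
        have h2 := hg.2 j
        unfold stdF at h2
        rw [lv_single] at h2
        exact h2
      · have h2 : S = {Fin.last m} := by
          ext x
          rw [mem_singleton]
          constructor
          · intro hx
            by_contra hne
            exact hj ⟨x.castPred hne, by rwa [Fin.castSucc_castPred]⟩
          · intro hx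
            have h3 : t = Fin.last m := by
              by_contra hne
              exact hj ⟨t.castPred hne, by rwa [Fin.castSucc_castPred]⟩
            rw [hx, ← h3]
            exact ht
        refine hg.1 S ?_
        rw [h2]
        norm_num

/-- reflection of `w` along `v` -/
def rfl' (v w : Fin (m + 1) → ℝ) : Fin (m + 1) → ℝ :=
  w - (2 * (∑ t, v t * w t) / ∑ t, v t * v t) • v

lemma rfl_inner (v w w' : Fin (m + 1) → ℝ) (hv : ∑ t, v t * v t ≠ 0) :
    ∑ t, rfl' v w t * rfl' v w' t = ∑ t, w t * w' t := by
  unfold rfl'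
  simp only [Pi.sub_apply, Pi.smul_apply, smul_eq_mul]
  obtain ⟨a, ha⟩ : ∃ a, a = ∑ t, v t * w t := ⟨_, rfl⟩
  obtain ⟨b, hb⟩ : ∃ b, b = ∑ t, v t * w' t := ⟨_, rfl⟩
  obtain ⟨n, hn⟩ : ∃ n, n = ∑ t, v t * v t := ⟨_, rfl⟩
  rw [← ha, ← hb, ← hn]
  rw [← hn] at hv
  have e1 : ∀ t, (w t - 2 * a / n * v t) * (w' t - 2 * b / n * v t) =
      w t * w' t - 2 * b / n * (v t * w t) - 2 * a / n * (v t * w' t) +
        (2 * a / n) * (2 * b / n) * (v t * v t) := fun t => by ring
  rw [sum_congr rfl fun t _ => e1 t, sum_add_distrib, sum_sub_distrib, sum_sub_distrib,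
    ← mul_sum, ← mul_sum, ← mul_sum, ← ha, ← hb, ← hn]
  field_simp
  ring

lemma lv_rfl (v w : Fin (m + 1) → ℝ) (hv : ∑ t, v t * v t ≠ 0) (g : Spn m) :
    lv (rfl' v w) (lv v g) = -lv v (lv w g) := by
  unfold rfl'
  rw [sub_eq_add_neg, ← neg_smul, lv_add, lv_smul, lv_sq]
  have h := lv_lv v w g
  have h2 : lv w (lv v g) = (2 * ∑ i, v i * w i) • g - lv v (lv w g) := by
    rw [← h]
    abel
  rw [h2, smul_smul]
  have h3 : -(2 * ∑ t, v t * w t) / (∑ t, v t * v t) * ∑ t, v t * v t =
      -(2 * ∑ t, v t * w t) := div_mul_cancel₀ _ hv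
  rw [← neg_div, h3, neg_smul]
  abel

lemma lq_rfl {q : Fin m → Fin (m + 1) → ℝ} {v : Fin (m + 1) → ℝ} (hv : ∑ t, v t * v t ≠ 0)
    {g : Spn m} (hg : Lq q g) :
    Lq (fun j => rfl' v (q j)) (lv v (eR (Fin.last m) g)) := by
  refine ⟨(hg.1.eR _).lv v, fun j => ?_⟩
  rw [lv_rfl v (q j) hv, lv_eR, hg.2 j, ← lv_eR v j.castSucc, last_anti, map_neg]

lemma rfl_rfl (v w : Fin (m + 1) → ℝ) (hv : ∑ t, v t * v t ≠ 0) : rfl' v (rfl' v w) = w := by
  unfold rfl'
  obtain ⟨a, ha⟩ : ∃ a, a = ∑ t, v t * w t := ⟨_, rfl⟩
  obtain ⟨n, hn⟩ : ∃ n, n = ∑ t, v t * v t := ⟨_, rfl⟩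
  have e1 : ∑ t, v t * (w - (2 * a / n) • v) t = -a := by
    have : ∀ t, v t * (w - (2 * a / n) • v) t = v t * w t - 2 * a / n * (v t * v t) := by
      intro t
      simp only [Pi.sub_apply, Pi.smul_apply, smul_eq_mul]
      ring
    rw [sum_congr rfl fun t _ => this t, sum_sub_distrib, ← mul_sum, ← ha, ← hn]
    rw [← hn] at hv
    field_simp
    ring
  rw [← ha, ← hn, e1, sub_sub, ← add_smul]
  have : 2 * a / n + 2 * -a / n = 0 := by ring
  rw [this, zero_smul, sub_zero]

lemma lq_nontriv_rfl {q : Fin m → Fin (m + 1) → ℝ} {v : Fin (m + 1) → ℝ}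
    (hv : ∑ t, v t * v t ≠ 0) (h : IsLine (Lq (fun j => rfl' v (q j)))) : IsLine (Lq q) := by
  obtain ⟨g, h1, h2, h3⟩ := h
  have key : ∀ g, lv v (eR (Fin.last m) (lv v (eR (Fin.last m) g))) = (∑ t, v t * v t) • g := by
    intro g
    rw [← lv_eR v (Fin.last m), eR_sq, lv_sq]
  refine ⟨lv v (eR (Fin.last m) g), ?_, ?_, ?_⟩
  · have h4 := lq_rfl hv h1
    simp only [rfl_rfl v _ hv] at h4
    exact h4
  · intro h0
    have h4 := key g
    rw [h0, map_zero, map_zero] at h4
    have h5 := smul_eq_zero.1 h4.symm
    rcases h5 with h5 | h5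
    · exact hv h5
    · exact h2 h5
  · intro g' hg'
    obtain ⟨c, hc⟩ := h3 _ (lq_rfl hv hg')
    refine ⟨c / ∑ t, v t * v t, ?_⟩
    have h4 := key g'
    rw [hc, map_smul, map_smul] at h4
    rw [div_eq_inv_mul, mul_smul, h4, smul_smul, inv_mul_cancel₀ hv, one_smul]

/-- frames whose first `i` vectors are standard -/
lemma line_aux (i : ℕ) : ∀ q : Fin m → Fin (m + 1) → ℝ, OF q →
    (∀ j : Fin m, j.val < m - i → q j = stdF j) → IsLine (Lq q) := by
  induction i with
  | zero =>
    intro q _ hj
    have : q = stdF := funext fun j => hj j (by omega)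
    rw [this]
    exact line_std
  | succ i ih =>
    intro q hq hj
    by_cases hm : m - i = m - (i + 1)
    · exact ih q hq (fun j hj2 => hj j (by omega))
    · have hlt : m - (i + 1) < m := by omega
      obtain ⟨a, ha⟩ : ∃ a : Fin m, a.val = m - (i + 1) := ⟨⟨_, hlt⟩, rfl⟩
      have hstd : ∀ j j' : Fin m, ∑ t, stdF j t * stdF j' t = if j = j' then (1 : ℝ) else 0 := by
        intro j j'
        unfold stdF
        rw [sum_eq_single j.castSucc]
        · by_cases h : j = j'
          · subst h
            simp
          · have h2 : j.castSucc ≠ j'.castSucc := fun h3 => h (Fin.castSucc_injective m h3)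
            simp [h, h2]
        · intro t _ ht
          rw [Pi.single_eq_of_ne ht, zero_mul]
        · simp
      by_cases hqa : q a = stdF a
      · refine ih q hq fun j hj2 => ?_
        by_cases h : j.val < m - (i + 1)
        · exact hj j h
        · have : j = a := Fin.ext (by omega)
          rw [this, hqa]
      · obtain ⟨v, hv⟩ : ∃ v, v = q a - stdF a := ⟨_, rfl⟩
        have hv0 : ∑ t, v t * v t ≠ 0 := by
          intro h0
          apply hqa
          have h1 := (sum_eq_zero_iff_of_nonneg (fun t _ => mul_self_nonneg (v t))).1 h0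
          funext t
          have h2 := h1 t (mem_univ t)
          have h3 := mul_self_eq_zero.1 h2
          rw [hv, Pi.sub_apply] at h3
          linarith
        have hqq : ∑ t, q a t * q a t = 1 := by
          rw [hq a a, if_pos rfl]
        have hee : ∑ t, (stdF a t : ℝ) * stdF a t = 1 := by
          rw [hstd, if_pos rfl]
        obtain ⟨c, hc⟩ : ∃ c, c = ∑ t, q a t * stdF a t := ⟨_, rfl⟩
        have hvv : ∑ t, v t * v t = 2 - 2 * c := by
          have e1 : ∀ t, v t * v t = q a t * q a t - 2 * (q a t * stdF a t) +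
              stdF a t * stdF a t := by
            intro t
            rw [hv, Pi.sub_apply]
            ring
          rw [sum_congr rfl fun t _ => e1 t, sum_add_distrib, sum_sub_distrib, ← mul_sum, hqq,
            hee, ← hc]
          ring
        have hvq : ∑ t, v t * q a t = 1 - c := by
          have e1 : ∀ t, v t * q a t = q a t * q a t - q a t * stdF a t := by
            intro t
            rw [hv, Pi.sub_apply]
            ring
          rw [sum_congr rfl fun t _ => e1 t, sum_sub_distrib, hqq, ← hc]
        refine lq_nontriv_rfl hv0 (ih _ ?_ ?_)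
        · intro j j'
          rw [rfl_inner v _ _ hv0, hq]
        · intro j hj2
          by_cases h : j.val < m - (i + 1)
          · have hja : j ≠ a := fun h3 => by
              rw [h3, ha] at h
              exact lt_irrefl _ h
            have e1 : ∑ t, v t * q j t = 0 := by
              have e2 : ∀ t, v t * q j t = q a t * q j t - stdF a t * stdF j t := by
                intro t
                rw [hv, Pi.sub_apply, hj j h]
                ring
              rw [sum_congr rfl fun t _ => e2 t, sum_sub_distrib, hq, hstd, if_neg hja.symm,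
                sub_zero]
            unfold rfl'
            rw [e1, mul_zero, zero_div, zero_smul, sub_zero, hj j h]
          · have hja : j = a := Fin.ext (by omega)
            rw [hja]
            unfold rfl'
            rw [hvq, hvv]
            have h2c : 2 - 2 * c ≠ 0 := by
              rw [← hvv]
              exact hv0
            have e1 : 2 * (1 - c) / (2 - 2 * c) = 1 := by
              rw [div_eq_one_iff_eq h2c]
              ring
            rw [e1, one_smul, hv, sub_sub_cancel]

/-- `L(q)` is a line -/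
theorem line_of {q : Fin m → Fin (m + 1) → ℝ} (hq : OF q) : IsLine (Lq q) :=
  line_aux m q hq fun j hj => by omega

end Pool.GTR
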