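import Mathlib

/-!
# GTR / Cl / Ops: left and right Clifford multiplication on functions of subsets

`Spn m = functions on the subsets of Fin (m+1)` is the real Clifford algebra with `e_i ^ 2 = 1`;
`eL i`, `eR i` are the left and the right multiplication by `e_i`, `lv v = ∑ v_i eL i` is the left
multiplication by the vector `v`.
-/

set_option autoImplicit false

open Finset

noncomputable section

namespace Pool.GTR

/-- the Clifford algebra of `ℝ^(m+1)` as a vector space -/
abbrev Spn (m : ℕ) := Finset (Fin (m + 1)) → ℝ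

variable {m : ℕ}

/-- `(-1)^(number of t ∈ S with p t)` -/
def sg (p : Fin (m + 1) → Prop) [DecidablePred p] (S : Finset (Fin (m + 1))) : ℝ :=
  (-1) ^ (S.filter p).card

/-- left multiplication by `e_i` -/
def eL (i : Fin (m + 1)) : Spn m →ₗ[ℝ] Spn m where
  toFun g := fun S => sg (· < i) S * g (symmDiff S {i})
  map_add' g h := by
    funext S
    simp only [Pi.add_apply]
    ring
  map_smul' c g := by
    funext S
    simp only [Pi.smul_apply, smul_eq_mul, RingHom.id_apply]
    ring

/-- right multiplication by `e_i` -/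
def eR (i : Fin (m + 1)) : Spn m →ₗ[ℝ] Spn m where
  toFun g := fun S => sg (i < ·) S * g (symmDiff S {i})
  map_add' g h := by
    funext S
    simp only [Pi.add_apply]
    ring
  map_smul' c g := by
    funext S
    simp only [Pi.smul_apply, smul_eq_mul, RingHom.id_apply]
    ring

/-- left multiplication by the vector `v` -/
def lv (v : Fin (m + 1) → ℝ) : Spn m →ₗ[ℝ] Spn m := ∑ i, v i • eL i

lemma eL_apply (i : Fin (m + 1)) (g : Spn m) (S : Finset (Fin (m + 1))) :
    eL i g S = sg (· < i) S * g (symmDiff S {i}) := rfl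

lemma eR_apply (i : Fin (m + 1)) (g : Spn m) (S : Finset (Fin (m + 1))) :
    eR i g S = sg (i < ·) S * g (symmDiff S {i}) := rfl

lemma lv_apply (v : Fin (m + 1) → ℝ) (g : Spn m) : lv v g = ∑ i, v i • eL i g := by
  unfold lv
  simp

lemma card_symm (S : Finset (Fin (m + 1))) (j : Fin (m + 1)) :
    (-1 : ℝ) ^ (symmDiff S {j}).card = -(-1) ^ S.card := by
  by_cases h : j ∈ S
  · have e : symmDiff S {j} = S.erase j := by
      ext x
      simp only [mem_symmDiff, mem_singleton, mem_erase]
      constructor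
      · rintro (⟨h1, h2⟩ | ⟨h1, h2⟩)
        · exact ⟨h2, h1⟩
        · exact absurd (h1 ▸ h) h2
      · rintro ⟨h1, h2⟩
        exact Or.inl ⟨h2, h1⟩
    rw [e]
    have h2 := card_erase_add_one h
    rw [← h2, pow_succ]
    ring
  · have e : symmDiff S {j} = insert j S := by
      ext x
      simp only [mem_symmDiff, mem_singleton, mem_insert]
      constructor
      · rintro (⟨h1, h2⟩ | ⟨h1, h2⟩)
        · exact Or.inr h1
        · exact Or.inl h1
      · rintro (h1 | h1)
        · exact Or.inr ⟨h1, h1 ▸ h⟩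
        · refine Or.inl ⟨h1, ?_⟩
          rintro rfl
          exact h h1
    rw [e, card_insert_of_notMem h, pow_succ]
    ring

lemma sg_symm (p : Fin (m + 1) → Prop) [DecidablePred p] (S : Finset (Fin (m + 1)))
    (j : Fin (m + 1)) : sg p (symmDiff S {j}) = if p j then -sg p S else sg p S := by
  unfold sg
  by_cases h : p j
  · rw [if_pos h]
    have e : (symmDiff S {j}).filter p = symmDiff (S.filter p) {j} := by
      ext x
      simp only [mem_symmDiff, mem_singleton, mem_filter]
      by_cases hx : x = j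
      · subst hx
        simp [h]
      · simp [hx]
    rw [e, card_symm]
  · rw [if_neg h]
    have e : (symmDiff S {j}).filter p = S.filter p := by
      ext x
      simp only [mem_symmDiff, mem_singleton, mem_filter]
      by_cases hx : x = j
      · subst hx
        simp [h]
      · simp [hx]
    rw [e]

lemma sg_sq (p : Fin (m + 1) → Prop) [DecidablePred p] (S : Finset (Fin (m + 1))) :
    sg p S * sg p S = 1 := by
  unfold sg
  rw [← mul_pow]
  norm_num

lemma sd_sd (S : Finset (Fin (m + 1))) (j : Fin (m + 1)) :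
    symmDiff (symmDiff S {j}) {j} = S := symmDiff_symmDiff_cancel_right _ _

lemma sd_comm (S : Finset (Fin (m + 1))) (i j : Fin (m + 1)) :
    symmDiff (symmDiff S {i}) {j} = symmDiff (symmDiff S {j}) {i} := symmDiff_right_comm _ _ _

lemma eL_sq (i : Fin (m + 1)) (g : Spn m) : eL i (eL i g) = g := by
  funext S
  rw [eL_apply, eL_apply, sg_symm, sd_sd, if_neg (lt_irrefl i), ← mul_assoc, sg_sq, one_mul]

lemma eR_sq (i : Fin (m + 1)) (g : Spn m) : eR i (eR i g) = g := by
  funext S
  rw [eR_apply, eR_apply, sg_symm, sd_sd, if_neg (lt_irrefl i), ← mul_assoc, sg_sq, one_mul]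

lemma eL_anti {i j : Fin (m + 1)} (h : i ≠ j) (g : Spn m) : eL i (eL j g) = -eL j (eL i g) := by
  funext S
  rw [Pi.neg_apply, eL_apply, eL_apply, eL_apply, eL_apply, sg_symm, sg_symm, sd_comm S i j]
  rcases lt_or_gt_of_ne h with h1 | h1
  · rw [if_pos h1, if_neg (not_lt.2 h1.le)]
    ring
  · rw [if_neg (not_lt.2 h1.le), if_pos h1]
    ring

lemma eR_anti {i j : Fin (m + 1)} (h : i ≠ j) (g : Spn m) : eR i (eR j g) = -eR j (eR i g) := by
  funext S
  rw [Pi.neg_apply, eR_apply, eR_apply, eR_apply, eR_apply, sg_symm, sg_symm, sd_comm S i j]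
  rcases lt_or_gt_of_ne h with h1 | h1
  · rw [if_neg (not_lt.2 h1.le), if_pos h1]
    ring
  · rw [if_pos h1, if_neg (not_lt.2 h1.le)]
    ring

lemma eL_eR (i j : Fin (m + 1)) (g : Spn m) : eL i (eR j g) = eR j (eL i g) := by
  funext S
  rw [eL_apply, eR_apply, eR_apply, eL_apply, sg_symm, sg_symm, sd_comm S i j]
  by_cases h1 : j < i
  · rw [if_pos h1, if_pos h1]
    ring
  · rw [if_neg h1, if_neg h1]
    ring

lemma lv_eR (v : Fin (m + 1) → ℝ) (j : Fin (m + 1)) (g : Spn m) :
    lv v (eR j g) = eR j (lv v g) := by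
  rw [lv_apply, lv_apply, map_sum]
  refine sum_congr rfl fun i _ => ?_
  rw [map_smul, eL_eR]

lemma lv_add (v w : Fin (m + 1) → ℝ) (g : Spn m) : lv (v + w) g = lv v g + lv w g := by
  rw [lv_apply, lv_apply, lv_apply, ← sum_add_distrib]
  exact sum_congr rfl fun i _ => by rw [Pi.add_apply, add_smul]

lemma lv_smul (c : ℝ) (v : Fin (m + 1) → ℝ) (g : Spn m) : lv (c • v) g = c • lv v g := by
  rw [lv_apply, lv_apply, smul_sum]
  exact sum_congr rfl fun i _ => by rw [Pi.smul_apply, smul_eq_mul, mul_smul]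

lemma lv_single (i : Fin (m + 1)) (g : Spn m) : lv (Pi.single i 1) g = eL i g := by
  rw [lv_apply, sum_eq_single i]
  · simp
  · intro j _ hj
    simp [hj]
  · simp

/-- the Clifford relation -/
lemma lv_lv (v w : Fin (m + 1) → ℝ) (g : Spn m) :
    lv v (lv w g) + lv w (lv v g) = (2 * ∑ i, v i * w i) • g := by
  have h1 : ∀ v w : Fin (m + 1) → ℝ, lv v (lv w g) = ∑ i, ∑ j, (v i * w j) • eL i (eL j g) := by
    intro v w
    rw [lv_apply]
    refine sum_congr rfl fun i _ => ?_
    rw [lv_apply, map_sum, smul_sum]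
    refine sum_congr rfl fun j _ => ?_
    rw [map_smul, smul_smul]
  rw [h1, h1, sum_comm (f := fun i j => (w i * v j) • eL i (eL j g)), ← sum_add_distrib]
  rw [mul_sum, sum_smul]
  refine sum_congr rfl fun i _ => ?_
  rw [← sum_add_distrib, sum_eq_single i]
  · rw [eL_sq, ← add_smul]
    congr 1
    ring
  · intro j _ hj
    rw [eL_anti hj.symm, smul_neg, mul_comm (w j) (v i), neg_add_cancel]
  · simp

lemma lv_sq (v : Fin (m + 1) → ℝ) (g : Spn m) : lv v (lv v g) = (∑ i, v i * v i) • g := by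
  have h := lv_lv v v g
  rw [← two_smul ℝ (lv v (lv v g)), mul_smul] at h
  exact smul_right_injective _ (two_ne_zero (α := ℝ)) h

/-- the even part -/
def Even' (g : Spn m) : Prop := ∀ S : Finset (Fin (m + 1)), (-1 : ℝ) ^ S.card = -1 → g S = 0

/-- the odd part -/
def Odd' (g : Spn m) : Prop := ∀ S : Finset (Fin (m + 1)), (-1 : ℝ) ^ S.card = 1 → g S = 0

lemma sgn_card (S : Finset (Fin (m + 1))) :
    (-1 : ℝ) ^ S.card = 1 ∨ (-1 : ℝ) ^ S.card = -1 := neg_one_pow_eq_or ℝ _

lemma Even'.eL {g : Spn m} (h : Even' g) (i : Fin (m + 1)) : Odd' (Pool.GTR.eL i g) := by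
  intro S hS
  rw [eL_apply, h, mul_zero]
  rw [card_symm, hS]

lemma Odd'.eL {g : Spn m} (h : Odd' g) (i : Fin (m + 1)) : Even' (Pool.GTR.eL i g) := by
  intro S hS
  rw [eL_apply, h, mul_zero]
  rw [card_symm, hS, neg_neg]

lemma Even'.eR {g : Spn m} (h : Even' g) (i : Fin (m + 1)) : Odd' (Pool.GTR.eR i g) := by
  intro S hS
  rw [eR_apply, h, mul_zero]
  rw [card_symm, hS]

lemma Odd'.eR {g : Spn m} (h : Odd' g) (i : Fin (m + 1)) : Even' (Pool.GTR.eR i g) := by
  intro S hS
  rw [eR_apply, h, mul_zero]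
  rw [card_symm, hS, neg_neg]

lemma Even'.sum {ι : Type*} {s : Finset ι} {f : ι → Spn m} (h : ∀ i ∈ s, Even' (f i)) :
    Even' (∑ i ∈ s, f i) := by
  intro S hS
  rw [Finset.sum_apply]
  exact sum_eq_zero fun i hi => h i hi S hS

lemma Odd'.sum {ι : Type*} {s : Finset ι} {f : ι → Spn m} (h : ∀ i ∈ s, Odd' (f i)) :
    Odd' (∑ i ∈ s, f i) := by
  intro S hS
  rw [Finset.sum_apply]
  exact sum_eq_zero fun i hi => h i hi S hS

lemma Even'.smul {g : Spn m} (h : Even' g) (c : ℝ) : Even' (c • g) := by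
  intro S hS
  rw [Pi.smul_apply, h S hS, smul_zero]

lemma Odd'.smul {g : Spn m} (h : Odd' g) (c : ℝ) : Odd' (c • g) := by
  intro S hS
  rw [Pi.smul_apply, h S hS, smul_zero]

lemma Even'.add {g g' : Spn m} (h : Even' g) (h' : Even' g') : Even' (g + g') := by
  intro S hS
  rw [Pi.add_apply, h S hS, h' S hS, add_zero]

lemma Even'.lv {g : Spn m} (h : Even' g) (v : Fin (m + 1) → ℝ) : Odd' (Pool.GTR.lv v g) := by
  rw [lv_apply]
  exact Odd'.sum fun i _ => (h.eL i).smul _

lemma Odd'.lv {g : Spn m} (h : Odd' g) (v : Fin (m + 1) → ℝ) : Even' (Pool.GTR.lv v g) := by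
  rw [lv_apply]
  exact Even'.sum fun i _ => (h.eL i).smul _

end Pool.GTR
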