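import Pool.Agent.GTR.Cl.Line

/-!
# GTR / Cl / Proj: a projection on `L(q)` which depends continuously on `q`
-/

set_option autoImplicit false

open Finset Filter Topology

noncomputable section

namespace Pool.GTR

variable {m : ℕ}

/-- even part of an element -/
def evp (g : Spn m) : Spn m := fun S => if (-1 : ℝ) ^ S.card = 1 then g S else 0

/-- partial products of the projection -/
def prA (q : Fin m → Fin (m + 1) → ℝ) (g : Spn m) : ℕ → Spn m
  | 0 => evp g
  | i + 1 => if h : i < m then
      (1 / 2 : ℝ) • (prA q g i + lv (q ⟨i, h⟩) (eR (Fin.castSucc ⟨i, h⟩) (prA q g i)))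
    else prA q g i

/-- the projection on `L(q)` -/
def prj (q : Fin m → Fin (m + 1) → ℝ) (g : Spn m) : Spn m := prA q g m

lemma evp_even (g : Spn m) : Even' (evp g) := by
  intro S hS
  unfold evp
  rw [if_neg]
  rw [hS]
  norm_num

lemma evp_eq {g : Spn m} (h : Even' g) : evp g = g := by
  funext S
  unfold evp
  rcases sgn_card S with h1 | h1
  · rw [if_pos h1]
  · rw [if_neg (by rw [h1]; norm_num), h S h1]

lemma prA_even (q : Fin m → Fin (m + 1) → ℝ) (g : Spn m) (i : ℕ) : Even' (prA q g i) := by
  induction i with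
  | zero => exact evp_even g
  | succ i ih =>
    unfold prA
    split_ifs with h
    · exact (ih.add ((ih.eR _).lv _)).smul _
    · exact ih

/-- the involution `T_j` -/
def tj (q : Fin m → Fin (m + 1) → ℝ) (j : Fin m) (g : Spn m) : Spn m :=
  lv (q j) (eR j.castSucc g)

lemma tj_add (q : Fin m → Fin (m + 1) → ℝ) (j : Fin m) (g h : Spn m) :
    tj q j (g + h) = tj q j g + tj q j h := by
  unfold tj
  rw [map_add, map_add]

lemma tj_smul (q : Fin m → Fin (m + 1) → ℝ) (j : Fin m) (c : ℝ) (g : Spn m) :
    tj q j (c • g) = c • tj q j g := by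
  unfold tj
  rw [map_smul, map_smul]

lemma tj_tj {q : Fin m → Fin (m + 1) → ℝ} (hq : OF q) (j : Fin m) (g : Spn m) :
    tj q j (tj q j g) = g := by
  unfold tj
  rw [← lv_eR, eR_sq, lv_sq, hq j j, if_pos rfl, one_smul]

lemma tj_comm {q : Fin m → Fin (m + 1) → ℝ} (hq : OF q) (i j : Fin m) (g : Spn m) :
    tj q i (tj q j g) = tj q j (tj q i g) := by
  by_cases h : i = j
  · rw [h]
  · unfold tj
    rw [← lv_eR (q j) i.castSucc, ← lv_eR (q i) j.castSucc]
    have h1 : eR i.castSucc (eR j.castSucc g) = -eR j.castSucc (eR i.castSucc g) :=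
      eR_anti (fun h2 => h (Fin.castSucc_injective m h2)) g
    rw [h1, map_neg, map_neg]
    have h2 := lv_lv (q i) (q j) (eR j.castSucc (eR i.castSucc g))
    rw [hq i j, if_neg h, mul_zero, zero_smul] at h2
    rw [← eq_neg_iff_add_eq_zero] at h2
    rw [h2, neg_neg]

lemma prA_succ (q : Fin m → Fin (m + 1) → ℝ) (g : Spn m) {i : ℕ} (h : i < m) :
    prA q g (i + 1) = (1 / 2 : ℝ) • (prA q g i + tj q ⟨i, h⟩ (prA q g i)) := by
  conv_lhs => unfold prA
  rw [dif_pos h]
  rfl

lemma prA_fix {q : Fin m → Fin (m + 1) → ℝ} (hq : OF q) (g : Spn m) (i : ℕ) :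
    ∀ j : Fin m, j.val < i → tj q j (prA q g i) = prA q g i := by
  induction i with
  | zero => intro j hj; omega
  | succ i ih =>
    intro j hj
    by_cases h : i < m
    · rw [prA_succ q g h, tj_smul, tj_add]
      congr 1
      by_cases hji : j.val < i
      · rw [tj_comm hq, ih j hji]
      · have : j = ⟨i, h⟩ := Fin.ext (by simp; omega)
        rw [this, tj_tj hq, add_comm]
    · have e1 : prA q g (i + 1) = prA q g i := by
        conv_lhs => unfold prA
        rw [dif_neg h]
      rw [e1]
      exact ih j (by omega)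

lemma lq_iff {q : Fin m → Fin (m + 1) → ℝ} (hq : OF q) (g : Spn m) :
    Lq q g ↔ Even' g ∧ ∀ j, tj q j g = g := by
  unfold Lq tj
  refine and_congr_right fun _ => forall_congr' fun j => ?_
  constructor
  · intro h
    rw [← h, lv_sq, hq j j, if_pos rfl, one_smul]
  · intro h
    conv_lhs => rw [← h]
    rw [lv_sq, hq j j, if_pos rfl, one_smul]

lemma prj_mem {q : Fin m → Fin (m + 1) → ℝ} (hq : OF q) (g : Spn m) : Lq q (prj q g) :=
  (lq_iff hq _).2 ⟨prA_even q g m, fun j => prA_fix hq g m j j.2⟩

lemma prj_eq {q : Fin m → Fin (m + 1) → ℝ} (hq : OF q) {g : Spn m} (hg : Lq q g) :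
    prj q g = g := by
  have h := ((lq_iff hq g).1 hg).2
  have key : ∀ i, prA q g i = g := by
    intro i
    induction i with
    | zero => exact evp_eq hg.1
    | succ i ih =>
      by_cases hi : i < m
      · rw [prA_succ q g hi, ih, h, ← two_smul ℝ g, smul_smul]
        norm_num
      · conv_lhs => unfold prA
        rw [dif_neg hi, ih]
  exact key m

lemma continuous_eL (i : Fin (m + 1)) : Continuous (eL (m := m) i) := by
  refine continuous_pi fun S => ?_
  simp only [eL_apply]
  fun_prop

lemma continuous_eR (i : Fin (m + 1)) : Continuous (eR (m := m) i) := by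
  refine continuous_pi fun S => ?_
  simp only [eR_apply]
  fun_prop

lemma continuous_lv : Continuous (fun p : (Fin (m + 1) → ℝ) × Spn m => lv p.1 p.2) := by
  simp only [lv_apply]
  refine continuous_finsetSum _ fun i _ => ?_
  have h1 : Continuous fun p : (Fin (m + 1) → ℝ) × Spn m => p.1 i :=
    (continuous_apply i).comp continuous_fst
  exact h1.smul ((continuous_eL i).comp continuous_snd)

lemma continuous_prA (i : ℕ) :
    Continuous (fun p : (Fin m → Fin (m + 1) → ℝ) × Spn m => prA p.1 p.2 i) := by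
  induction i with
  | zero =>
    unfold prA evp
    refine continuous_pi fun S => ?_
    split_ifs
    · exact (continuous_apply S).comp continuous_snd
    · exact continuous_const
  | succ i ih =>
    by_cases h : i < m
    · simp only [prA_succ _ _ h]
      have h1 : Continuous fun p : (Fin m → Fin (m + 1) → ℝ) × Spn m => p.1 ⟨i, h⟩ :=
        (continuous_apply _).comp continuous_fst
      have h2 : Continuous fun p : (Fin m → Fin (m + 1) → ℝ) × Spn m =>
          tj p.1 ⟨i, h⟩ (prA p.1 p.2 i) := by
        unfold tj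
        exact continuous_lv.comp (h1.prodMk ((continuous_eR _).comp ih))
      exact (ih.add h2).const_smul (1 / 2 : ℝ)
    · have e1 : ∀ p : (Fin m → Fin (m + 1) → ℝ) × Spn m, prA p.1 p.2 (i + 1) =
          prA p.1 p.2 i := by
        intro p
        conv_lhs => unfold prA
        rw [dif_neg h]
      simp only [e1]
      exact ih

lemma continuous_prj :
    Continuous (fun p : (Fin m → Fin (m + 1) → ℝ) × Spn m => prj p.1 p.2) :=
  continuous_prA m

/-- two nonzero elements of `L(q)` -/
lemma lq_pair {q : Fin m → Fin (m + 1) → ℝ} (hq : OF q) {g g' : Spn m} (hg : Lq q g)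
    (hg' : Lq q g') (h : g ≠ 0) : ∃ c : ℝ, g' = c • g := by
  obtain ⟨g0, h1, h2, h3⟩ := line_of hq
  obtain ⟨c, hc⟩ := h3 g hg
  obtain ⟨c', hc'⟩ := h3 g' hg'
  have hc0 : c ≠ 0 := by
    rintro rfl
    exact h (by rw [hc, zero_smul])
  refine ⟨c' / c, ?_⟩
  rw [hc, hc', smul_smul, div_mul_cancel₀ _ hc0]

end Pool.GTR
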