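import Pool.Agent.GTR.Cl.Eps

/-!
# GTR / Cl / Refl: coordinate reflections and the crossing sign
-/

set_option autoImplicit false

open Finset Filter Topology

noncomputable section

namespace Pool.GTR

variable {m : ℕ}

/-- reflection in the coordinate `i` -/
def rc (i : Fin (m + 1)) (v : Fin (m + 1) → ℝ) : Fin (m + 1) → ℝ := fun t =>
  if t = i then -v t else v t

/-- `g ↦ e_i g e_k` -/
def tw (i : Fin (m + 1)) (g : Spn m) : Spn m := eL i (eR (Fin.last m) g)

lemma tw_smul (i : Fin (m + 1)) (c : ℝ) (g : Spn m) : tw i (c • g) = c • tw i g := by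
  unfold tw
  rw [map_smul, map_smul]

lemma tw_tw (i : Fin (m + 1)) (g : Spn m) : tw i (tw i g) = g := by
  unfold tw
  rw [← eL_eR, eR_sq, eL_sq]

lemma tw_comm {i j : Fin (m + 1)} (h : i ≠ j) (g : Spn m) : tw i (tw j g) = -tw j (tw i g) := by
  unfold tw
  rw [← eL_eR j (Fin.last m), ← eL_eR i (Fin.last m), eL_anti h]

lemma tw_ne {i : Fin (m + 1)} {g : Spn m} (h : g ≠ 0) : tw i g ≠ 0 := by
  intro h0
  have := tw_tw i g
  rw [h0] at this
  unfold tw at this
  rw [map_zero, map_zero] at this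
  exact h this.symm

lemma continuous_tw (i : Fin (m + 1)) : Continuous (tw (m := m) i) :=
  (continuous_eL i).comp (continuous_eR _)

lemma rc_inner (i : Fin (m + 1)) (v w : Fin (m + 1) → ℝ) :
    ∑ t, rc i v t * rc i w t = ∑ t, v t * w t := by
  refine sum_congr rfl fun t _ => ?_
  unfold rc
  split_ifs
  · ring
  · rfl

/-- the linear map `rc i` -/
def rcL (i : Fin (m + 1)) : (Fin (m + 1) → ℝ) →ₗ[ℝ] (Fin (m + 1) → ℝ) where
  toFun := rc i
  map_add' v w := by
    funext t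
    simp only [rc, Pi.add_apply]
    split_ifs
    · ring
    · rfl
  map_smul' c v := by
    funext t
    simp only [rc, Pi.smul_apply, smul_eq_mul, RingHom.id_apply]
    split_ifs
    · ring
    · rfl

lemma IsGS.rc {M q : Fin m → Fin (m + 1) → ℝ} (h : IsGS M q) (i : Fin (m + 1)) :
    IsGS (fun j => Pool.GTR.rc i (M j)) (fun j => Pool.GTR.rc i (q j)) :=
  h.map (rcL i) (rc_inner i)

lemma lv_rc (i : Fin (m + 1)) (v : Fin (m + 1) → ℝ) (g : Spn m) :
    lv (rc i v) (eL i g) = -eL i (lv v g) := by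
  rw [lv_apply, lv_apply, map_sum, ← sum_neg_distrib]
  refine sum_congr rfl fun t _ => ?_
  rw [map_smul]
  unfold rc
  by_cases h : t = i
  · rw [if_pos h, h, eL_sq, neg_smul]
  · rw [if_neg h, eL_anti h, smul_neg]

lemma Lq.tw {q : Fin m → Fin (m + 1) → ℝ} {g : Spn m} (h : Lq q g) (i : Fin (m + 1)) :
    Lq (fun j => rc i (q j)) (Pool.GTR.tw i g) := by
  refine ⟨(h.1.eR _).eL i, fun j => ?_⟩
  unfold Pool.GTR.tw
  rw [lv_rc, lv_eR, h.2 j, ← eL_eR i j.castSucc, last_anti, map_neg]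

/-- the crossing sign at a frame orthogonal to `e_i` -/
def KapIs (i : Fin (m + 1)) (q : Fin m → Fin (m + 1) → ℝ) (κ : ℝ) : Prop :=
  ∀ g, Lq q g → tw i g = κ • g

lemma rc_eq {i : Fin (m + 1)} {v : Fin (m + 1) → ℝ} (h : v i = 0) : rc i v = v := by
  funext t
  unfold rc
  split_ifs with ht
  · rw [ht, h, neg_zero]
  · rfl

lemma exists_kap {i : Fin (m + 1)} {q : Fin m → Fin (m + 1) → ℝ} (hq : OF q)
    (h : ∀ j, q j i = 0) : ∃ κ : ℝ, (κ = 1 ∨ κ = -1) ∧ KapIs i q κ := by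
  obtain ⟨g0, h1, h2, -⟩ := line_of hq
  have h3 := h1.tw i
  simp only [rc_eq (h _)] at h3
  obtain ⟨κ, hκ⟩ := lq_pair hq h1 h3 h2
  have h4 : κ * κ = 1 := by
    have h5 := tw_tw i g0
    rw [hκ, tw_smul, hκ, smul_smul] at h5
    by_contra hne
    have h6 : (κ * κ - 1) • g0 = 0 := by
      rw [sub_smul, one_smul, h5, sub_self]
    rcases smul_eq_zero.1 h6 with h7 | h7
    · exact hne (by linarith)
    · exact h2 h7
  refine ⟨κ, ?_, ?_⟩
  · exact mul_self_eq_one_iff.1 h4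
  · intro g hg
    obtain ⟨c, hc⟩ := lq_pair hq h1 hg h2
    rw [hc, tw_smul, hκ, smul_comm]

/-- the crossing sign is constant along paths of frames orthogonal to `e_i` -/
theorem kap_path {i : Fin (m + 1)} {q : ℝ → Fin m → Fin (m + 1) → ℝ} {a b : ℝ} (hab : a ≤ b)
    (hc : ContinuousOn q (Set.Icc a b)) (hq : ∀ x ∈ Set.Icc a b, OF (q x))
    (h : ∀ x ∈ Set.Icc a b, ∀ j, q x j i = 0) {κ : ℝ} (hκ : KapIs i (q a) κ) :
    KapIs i (q b) κ := by
  obtain ⟨g, hg⟩ := exists_sec hab hc hq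
  have ham : a ∈ Set.Icc a b := ⟨le_rfl, hab⟩
  have hbm : b ∈ Set.Icc a b := ⟨hab, le_rfl⟩
  obtain ⟨f, hf⟩ : ∃ f : ℝ → ℝ, f = fun x => ∑ S, tw i (g x) S * g x S := ⟨_, rfl⟩
  have hfc : ContinuousOn f (Set.Icc a b) := by
    rw [hf]
    refine continuousOn_finsetSum _ fun S _ => ?_
    exact ((continuous_apply S).comp_continuousOn ((continuous_tw i).comp_continuousOn hg.cont)).mul
      ((continuous_apply S).comp_continuousOn hg.cont)
  have hgg : ∀ x ∈ Set.Icc a b, 0 < ∑ S, g x S * g x S := by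
    intro x hx
    refine lt_of_le_of_ne (sum_nonneg fun S _ => mul_self_nonneg _) fun h0 => ?_
    apply hg.ne x hx
    have h3 := (sum_eq_zero_iff_of_nonneg (fun S _ => mul_self_nonneg (g x S))).1 h0.symm
    funext S
    exact mul_self_eq_zero.1 (h3 S (mem_univ S))
  have hval : ∀ x ∈ Set.Icc a b, ∀ c : ℝ, KapIs i (q x) c →
      f x = c * ∑ S, g x S * g x S := by
    intro x hx c hcx
    rw [hf, mul_sum]
    refine sum_congr rfl fun S _ => ?_
    rw [hcx (g x) (hg.mem x hx), Pi.smul_apply, smul_eq_mul]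
    ring
  obtain ⟨κa, ha1, ha2⟩ := exists_kap (hq a ham) (h a ham)
  obtain ⟨κb, hb1, hb2⟩ := exists_kap (hq b hbm) (h b hbm)
  have hka : κ = κa := by
    have e1 := hval a ham κ hκ
    have e2 := hval a ham κa ha2
    rw [e1] at e2
    exact mul_right_cancel₀ (hgg a ham).ne' e2
  have hne : ∀ x ∈ Set.Icc a b, f x ≠ 0 := by
    intro x hx
    obtain ⟨κx, hx1, hx2⟩ := exists_kap (hq x hx) (h x hx)
    rw [hval x hx κx hx2]
    refine mul_ne_zero ?_ (hgg x hx).ne'
    rcases hx1 with h1 | h1 <;> rw [h1] <;> norm_num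
  have hab2 : κa = κb := by
    by_contra hcon
    have e1 := hval a ham κa ha2
    have e2 := hval b hbm κb hb2
    have p1 := hgg a ham
    have p2 := hgg b hbm
    rcases ha1 with h1 | h1 <;> rcases hb1 with h2 | h2
    · exact hcon (by rw [h1, h2])
    · rw [h1, one_mul] at e1
      rw [h2] at e2
      have h3 : (0 : ℝ) ∈ Set.Icc (f b) (f a) := ⟨by linarith, by linarith⟩
      obtain ⟨x, hx, hx0⟩ := intermediate_value_Icc' hab hfc h3
      exact hne x hx hx0
    · rw [h2, one_mul] at e2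
      rw [h1] at e1
      have h3 : (0 : ℝ) ∈ Set.Icc (f a) (f b) := ⟨by linarith, by linarith⟩
      obtain ⟨x, hx, hx0⟩ := intermediate_value_Icc hab hfc h3
      exact hne x hx hx0
    · exact hcon (by rw [h1, h2])
  rw [hka, hab2]
  exact hb2

end Pool.GTR
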