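import Pool.Agent.GTR.Cl.Proj

/-!
# GTR / Cl / Sect: continuous nowhere zero sections of the line `L(q(x))` on an interval
-/

set_option autoImplicit false

open Finset Filter Topology Set

noncomputable section

namespace Pool.GTR

variable {m : ℕ}

/-- section over `[a, b]` -/
structure SecOn (q : ℝ → Fin m → Fin (m + 1) → ℝ) (a b : ℝ) (g : ℝ → Spn m) : Prop where
  cont : ContinuousOn g (Icc a b)
  mem : ∀ x ∈ Icc a b, Lq (q x) (g x)
  ne : ∀ x ∈ Icc a b, g x ≠ 0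

lemma cont_prj {q : ℝ → Fin m → Fin (m + 1) → ℝ} {s : Set ℝ} (hc : ContinuousOn q s)
    {g : ℝ → Spn m} (hg : ContinuousOn g s) : ContinuousOn (fun x => prj (q x) (g x)) s :=
  continuous_prj.comp_continuousOn (hc.prodMk hg)

/-- extension of a section by a local section -/
lemma ext_sec {q : ℝ → Fin m → Fin (m + 1) → ℝ} {a b c d : ℝ} (hac : a ≤ c) (hcd : c ≤ d)
    (hdb : d ≤ b) (hq : ∀ x ∈ Icc a b, OF (q x)) {g h : ℝ → Spn m} (hg : SecOn q a c g)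
    (hh : SecOn q c d h) : ∃ g', SecOn q a d g' := by
  have hcm : c ∈ Icc a b := ⟨hac, hcd.trans hdb⟩
  obtain ⟨l, hl⟩ := lq_pair (hq c hcm) (hh.mem c ⟨le_rfl, hcd⟩) (hg.mem c ⟨hac, le_rfl⟩)
    (hh.ne c ⟨le_rfl, hcd⟩)
  have hl0 : l ≠ 0 := by
    rintro rfl
    rw [zero_smul] at hl
    exact hg.ne c ⟨hac, le_rfl⟩ hl
  refine ⟨fun x => if x ≤ c then g x else l • h x, ?_, ?_, ?_⟩
  · rw [← Icc_union_Icc_eq_Icc hac hcd]
    refine ContinuousOn.union_of_isClosed ?_ ?_ isClosed_Icc isClosed_Icc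
    · refine hg.cont.congr fun x hx => ?_
      rw [if_pos hx.2]
    · refine (hh.cont.const_smul l).congr fun x hx => ?_
      rcases hx.1.eq_or_lt with h1 | h1
      · rw [if_pos h1.ge, ← h1, hl]
        rfl
      · rw [if_neg (not_le.2 h1)]
        rfl
  · intro x hx
    split_ifs with h1
    · exact hg.mem x ⟨hx.1, h1⟩
    · exact (hh.mem x ⟨(not_le.1 h1).le, hx.2⟩).smul l
  · intro x hx
    split_ifs with h1
    · exact hg.ne x ⟨hx.1, h1⟩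
    · exact smul_ne_zero hl0 (hh.ne x ⟨(not_le.1 h1).le, hx.2⟩)

lemma SecOn.mono {q : ℝ → Fin m → Fin (m + 1) → ℝ} {a b a' b' : ℝ} {g : ℝ → Spn m}
    (h : SecOn q a b g) (ha : a ≤ a') (hb : b' ≤ b) : SecOn q a' b' g where
  cont := h.cont.mono (Icc_subset_Icc ha hb)
  mem x hx := h.mem x (Icc_subset_Icc ha hb hx)
  ne x hx := h.ne x (Icc_subset_Icc ha hb hx)

/-- local sections -/
lemma local_sec {q : ℝ → Fin m → Fin (m + 1) → ℝ} {a b : ℝ} (hc : ContinuousOn q (Icc a b))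
    (hq : ∀ x ∈ Icc a b, OF (q x)) {x0 : ℝ} (hx0 : x0 ∈ Icc a b) :
    ∃ (δ : ℝ) (h : ℝ → Spn m), 0 < δ ∧ ∀ c d, a ≤ c → d ≤ b → x0 - δ < c → d < x0 + δ →
      SecOn q c d h := by
  obtain ⟨g0, h1, h2, -⟩ := line_of (hq x0 hx0)
  have h3 : ContinuousOn (fun x => prj (q x) g0) (Icc a b) := cont_prj hc continuousOn_const
  have h4 : ∀ᶠ x in 𝓝[Icc a b] x0, prj (q x) g0 ≠ 0 := by
    refine (h3 x0 hx0).eventually_ne ?_
    show prj (q x0) g0 ≠ 0
    rw [prj_eq (hq x0 hx0) h1]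
    exact h2
  rw [eventually_nhdsWithin_iff, Metric.eventually_nhds_iff] at h4
  obtain ⟨δ, hδ, h5⟩ := h4
  refine ⟨δ, fun x => prj (q x) g0, hδ, fun c d hac hdb hc1 hd1 => ⟨?_, ?_, ?_⟩⟩
  · exact h3.mono (Icc_subset_Icc hac hdb)
  · intro x hx
    exact prj_mem (hq x (Icc_subset_Icc hac hdb hx)) g0
  · intro x hx
    refine h5 ?_ (Icc_subset_Icc hac hdb hx)
    rw [Real.dist_eq, abs_lt]
    constructor
    · linarith [hx.1]
    · linarith [hx.2]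

theorem exists_sec {q : ℝ → Fin m → Fin (m + 1) → ℝ} {a b : ℝ} (hab : a ≤ b)
    (hc : ContinuousOn q (Icc a b)) (hq : ∀ x ∈ Icc a b, OF (q x)) :
    ∃ g : ℝ → Spn m, SecOn q a b g := by
  set A : Set ℝ := {c | c ∈ Icc a b ∧ ∃ g, SecOn q a c g} with hA
  have haA : a ∈ A := by
    obtain ⟨δ, h, hδ, h1⟩ := local_sec hc hq ⟨le_rfl, hab⟩
    exact ⟨⟨le_rfl, hab⟩, h, h1 a a le_rfl hab (by linarith) (by linarith)⟩
  have hbdd : BddAbove A := ⟨b, fun x hx => hx.1.2⟩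
  set s := sSup A with hs
  have hsm : s ∈ Icc a b := ⟨le_csSup hbdd haA, csSup_le ⟨a, haA⟩ fun x hx => hx.1.2⟩
  obtain ⟨δ, h, hδ, h1⟩ := local_sec hc hq hsm
  obtain ⟨c, hcA, hcs⟩ := exists_lt_of_lt_csSup ⟨a, haA⟩ (show s - δ < sSup A by linarith)
  obtain ⟨hcI, g, hg⟩ := hcA
  have hcs' : c ≤ s := le_csSup hbdd ⟨hcI, g, hg⟩
  obtain ⟨d, hd⟩ : ∃ d, d = min (s + δ / 2) b := ⟨_, rfl⟩
  have hdb : d ≤ b := by rw [hd]; exact min_le_right _ _
  have hds : d ≤ s + δ / 2 := by rw [hd]; exact min_le_left _ _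
  have hcd : c ≤ d := by
    rw [hd]
    exact le_min (by linarith) hcI.2
  obtain ⟨g', hg'⟩ := ext_sec hcI.1 hcd hdb hq hg (h1 c d hcI.1 hdb hcs (by linarith))
  have hdA : d ∈ A := ⟨⟨hcI.1.trans hcd, hdb⟩, g', hg'⟩
  have hds2 : d ≤ s := le_csSup hbdd hdA
  have hdb2 : d = b := by
    rw [hd]
    refine min_eq_right ?_
    by_contra hcon
    rw [hd, min_eq_left (not_le.1 hcon).le] at hds2
    linarith
  rw [hdb2] at hg'
  exact ⟨g', hg'⟩

end Pool.GTR
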