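import Pool.Agent.GTR.Cl.Refl

/-!
# GTR / Cl / Word: the operator and the sign of a word
-/

set_option autoImplicit false

open Finset

noncomputable section

namespace Pool.GTR

variable {m : ℕ}

/-- `e_(i (r-1)) ... e_(i 0) g e_k^r` -/
def opw (i : ℕ → Fin (m + 1)) : ℕ → Spn m → Spn m
  | 0, g => g
  | r + 1, g => tw (i r) (opw i r g)

/-- number of `s < r` with `p (i s) (i r)`, summed over `r < N` -/
def inv' (p : Fin (m + 1) → Fin (m + 1) → Prop) [DecidableRel p] (i : ℕ → Fin (m + 1)) (N : ℕ) :
    ℕ := ∑ r ∈ range N, ((range r).filter (fun s => p (i s) (i r))).card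

/-- the sign of the word: `(-1)^#{s < r : i s > i r}` -/
def sgw (i : ℕ → Fin (m + 1)) (N : ℕ) : ℝ := (-1) ^ inv' (fun a b => b < a) i N

/-- number of occurrences of the letter `a` -/
def cnt (i : ℕ → Fin (m + 1)) (N : ℕ) (a : Fin (m + 1)) : ℕ :=
  ((range N).filter (fun r => i r = a)).card

/-- sorted product over the letters of a list -/
def srt (n : Fin (m + 1) → ℕ) : List (Fin (m + 1)) → Spn m → Spn m
  | [], g => g
  | a :: L, g => (tw a)^[n a] (srt n L g)

lemma tw_iter (a b : Fin (m + 1)) (h : b ≠ a) (n : ℕ) (g : Spn m) :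
    tw b ((tw a)^[n] g) = (-1 : ℝ) ^ n • (tw a)^[n] (tw b g) := by
  induction n generalizing g with
  | zero => simp
  | succ n ih =>
    rw [Function.iterate_succ_apply, ih, Function.iterate_succ_apply]
    have e1 : tw b (tw a g) = (-1 : ℝ) • tw a (tw b g) := by
      rw [tw_comm h, neg_one_smul]
    have e2 : ∀ (c : ℝ) (n : ℕ) (h : Spn m), (tw a)^[n] (c • h) = c • (tw a)^[n] h := by
      intro c n h
      induction n generalizing h with
      | zero => rfl
      | succ n ih2 => rw [Function.iterate_succ_apply, Function.iterate_succ_apply, tw_smul, ih2]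
    rw [e1, e2, smul_smul, ← pow_succ]

lemma srt_congr {n n' : Fin (m + 1) → ℕ} {L : List (Fin (m + 1))} (h : ∀ a ∈ L, n a = n' a)
    (g : Spn m) : srt n L g = srt n' L g := by
  induction L with
  | nil => rfl
  | cons a L ih =>
    unfold srt
    rw [h a (List.mem_cons_self), ih fun b hb => h b (List.mem_cons_of_mem _ hb)]

lemma iter_smul (a : Fin (m + 1)) (c : ℝ) (n : ℕ) (h : Spn m) :
    (tw a)^[n] (c • h) = c • (tw a)^[n] h := by
  induction n generalizing h with
  | zero => rfl
  | succ n ih2 => rw [Function.iterate_succ_apply, Function.iterate_succ_apply, tw_smul, ih2]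

/-- insertion of a letter in the sorted product -/
lemma tw_srt (n : Fin (m + 1) → ℕ) (b : Fin (m + 1)) (g : Spn m) :
    ∀ L : List (Fin (m + 1)), L.Pairwise (· < ·) → b ∈ L →
      tw b (srt n L g) = (-1 : ℝ) ^ ((L.filter (· < b)).map n).sum •
        srt (fun a => if a = b then n a + 1 else n a) L g := by
  intro L
  induction L with
  | nil => intro _ hb; simp at hb
  | cons a L ih =>
    intro hL hb
    rw [List.pairwise_cons] at hL
    by_cases hab : a = b
    · subst hab
      have e1 : ((a :: L).filter (· < a)) = [] := by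
        rw [List.filter_eq_nil_iff]
        intro x hx
        rcases List.mem_cons.1 hx with h | h
        · rw [h]
          simp
        · have := hL.1 x h
          simp [this.le]
      rw [e1]
      simp only [List.map_nil, List.sum_nil, pow_zero, one_smul]
      have e2 : srt (fun c => if c = a then n c + 1 else n c) L g = srt n L g := by
        refine srt_congr (fun c hc => ?_) g
        rw [if_neg]
        rintro rfl
        exact lt_irrefl _ (hL.1 c hc)
      show tw a ((tw a)^[n a] (srt n L g)) =
        (tw a)^[if a = a then n a + 1 else n a] (srt (fun c => if c = a then n c + 1 else n c) L g)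
      rw [if_pos rfl, e2, Function.iterate_succ_apply']
    · have hbL : b ∈ L := by
        rcases List.mem_cons.1 hb with h | h
        · exact absurd h.symm hab
        · exact h
      have hlt : a < b := hL.1 b hbL
      show tw b ((tw a)^[n a] (srt n L g)) = _ • (tw a)^[if a = b then n a + 1 else n a]
        (srt (fun c => if c = b then n c + 1 else n c) L g)
      rw [if_neg hab, tw_iter a b (Ne.symm hab), ih hL.2 hbL, iter_smul, smul_smul]
      congr 1
      rw [List.filter_cons_of_pos (by simpa using hlt), List.map_cons, List.sum_cons, pow_add]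

lemma cnt_succ (i : ℕ → Fin (m + 1)) (N : ℕ) (a : Fin (m + 1)) :
    cnt i (N + 1) a = if a = i N then cnt i N a + 1 else cnt i N a := by
  unfold cnt
  rw [range_add_one, filter_insert]
  by_cases h : i N = a
  · rw [if_pos h, if_pos h.symm, card_insert_of_notMem (by simp)]
  · rw [if_neg h, if_neg (fun h2 => h h2.symm)]

/-- the word operator is the sorted product up to a sign -/
theorem opw_srt (i : ℕ → Fin (m + 1)) (N : ℕ) (g : Spn m) :
    opw i N g = (-1 : ℝ) ^ inv' (fun a b => a < b) i N •
      srt (cnt i N) (List.finRange (m + 1)) g := by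
  induction N with
  | zero =>
    have e1 : ∀ L : List (Fin (m + 1)), srt (cnt i 0) L g = g := by
      intro L
      induction L with
      | nil => rfl
      | cons a L ih =>
        unfold srt
        rw [ih]
        unfold cnt
        simp
    rw [e1]
    unfold inv' opw
    simp
  | succ N ih =>
    show tw (i N) (opw i N g) = _
    rw [ih, tw_smul, tw_srt _ _ _ _ (List.pairwise_lt_finRange (m + 1)) (List.mem_finRange _),
      smul_smul, ← pow_add]
    have e1 : srt (fun a => if a = i N then cnt i N a + 1 else cnt i N a)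
        (List.finRange (m + 1)) g = srt (cnt i (N + 1)) (List.finRange (m + 1)) g :=
      srt_congr (fun a _ => (cnt_succ i N a).symm) g
    rw [e1]
    congr 2
    unfold inv'
    rw [sum_range_succ]
    congr 1
    -- number of `s < N` with `i s < i N`
    have e2 : (((List.finRange (m + 1)).filter (· < i N)).map (cnt i N)).sum =
        ∑ a ∈ univ.filter (· < i N), cnt i N a := by
      have h1 : (univ.filter (· < i N) : Finset (Fin (m + 1))) =
          ((List.finRange (m + 1)).filter (· < i N)).toFinset := by
        ext x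
        simp
      rw [h1, List.sum_toFinset]
      exact (List.nodup_finRange (m + 1)).filter _
    rw [e2]
    unfold cnt
    rw [← card_biUnion]
    · congr 1
      ext s
      simp only [mem_biUnion, mem_filter, mem_univ, true_and, mem_range]
      constructor
      · rintro ⟨a, ha, hs, rfl⟩
        exact ⟨hs, ha⟩
      · rintro ⟨hs, ha⟩
        exact ⟨i s, ha, hs, rfl⟩
    · intro a _ b _ hab
      rw [Function.onFun, Finset.disjoint_left]
      intro s hs hs2
      rw [mem_filter] at hs hs2
      exact hab (hs.2.symm.trans hs2.2)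

/-- moving a letter through the word operator -/
lemma opw_tw (i : ℕ → Fin (m + 1)) (r : ℕ) (a : Fin (m + 1)) (g : Spn m) :
    tw a (opw i r g) = (-1 : ℝ) ^ ((range r).filter (fun s => i s ≠ a)).card •
      opw i r (tw a g) := by
  induction r with
  | zero => unfold opw; simp
  | succ r ih =>
    show tw a (tw (i r) (opw i r g)) = _ • tw (i r) (opw i r (tw a g))
    rw [range_add_one, filter_insert]
    by_cases h : i r = a
    · rw [if_neg (by simpa using h)]
      rw [h, ih, tw_smul]
    · rw [if_pos h, card_insert_of_notMem (by simp), tw_comm (Ne.symm h), ih, tw_smul, pow_succ]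
      rw [mul_neg_one, neg_smul]

lemma inv_ne (i : ℕ → Fin (m + 1)) (N : ℕ) :
    inv' (fun a b => a ≠ b) i N = inv' (fun a b => a < b) i N + inv' (fun a b => b < a) i N := by
  unfold inv'
  rw [← sum_add_distrib]
  refine sum_congr rfl fun r _ => ?_
  rw [← card_union_of_disjoint]
  · congr 1
    ext s
    simp only [mem_filter, mem_union, mem_range]
    constructor
    · rintro ⟨h1, h2⟩
      rcases lt_or_gt_of_ne h2 with h3 | h3
      · exact Or.inl ⟨h1, h3⟩
      · exact Or.inr ⟨h1, h3⟩
    · rintro (⟨h1, h2⟩ | ⟨h1, h2⟩)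
      · exact ⟨h1, h2.ne⟩
      · exact ⟨h1, h2.ne'⟩
  · rw [Finset.disjoint_left]
    intro s hs hs2
    rw [mem_filter] at hs hs2
    exact absurd hs.2 (not_lt.2 hs2.2.le)

/-- the coefficient of the section after `r` crossings -/
def cfw (i : ℕ → Fin (m + 1)) (κ : Fin (m + 1) → ℝ) (r : ℕ) : ℝ :=
  (-1) ^ inv' (fun a b => a ≠ b) i r * ∏ s ∈ range r, κ (i s)

lemma cfw_succ (i : ℕ → Fin (m + 1)) (κ : Fin (m + 1) → ℝ) (r : ℕ) :
    cfw i κ (r + 1) = cfw i κ r *
      ((-1) ^ ((range r).filter (fun s => i s ≠ i r)).card * κ (i r)) := by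
  unfold cfw inv'
  rw [sum_range_succ, prod_range_succ, pow_add]
  ring

lemma prod_kap (i : ℕ → Fin (m + 1)) (κ : Fin (m + 1) → ℝ) (N : ℕ) :
    ∏ s ∈ range N, κ (i s) = ∏ a, κ a ^ cnt i N a := by
  unfold cnt
  rw [← prod_fiberwise_of_maps_to (s := range N) (t := univ) (g := i) fun _ _ => mem_univ _]
  refine prod_congr rfl fun a _ => ?_
  rw [← prod_const]
  refine prod_congr rfl fun s hs => ?_
  rw [(mem_filter.1 hs).2]

/-- total sign of the word -/
theorem cfw_opw (i : ℕ → Fin (m + 1)) (κ : Fin (m + 1) → ℝ) (N : ℕ) (g : Spn m) :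
    cfw i κ N • opw i N g = (sgw i N * ∏ a, κ a ^ cnt i N a) •
      srt (cnt i N) (List.finRange (m + 1)) g := by
  rw [opw_srt, smul_smul]
  congr 1
  unfold cfw sgw
  rw [inv_ne, prod_kap, pow_add]
  have h : (-1 : ℝ) ^ inv' (fun a b => a < b) i N * (-1) ^ inv' (fun a b => a < b) i N = 1 := by
    rw [← mul_pow]
    norm_num
  linear_combination ((-1 : ℝ) ^ inv' (fun a b => b < a) i N * ∏ a, κ a ^ cnt i N a) * h

end Pool.GTR
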